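import Pool.Agent.NH5.SC.Stm

/-! # Project SC (helper5), SC-1: local squares (helper30) -/

set_option autoImplicit false

namespace Pool.Agent.NH5.SC.A1

open Pool.Agent.NH5.SC

/-- every automorphism of the local field restricts -/
theorem exists_res {p : ℕ} [Fact p.Prime] (ι : QBar →ₐ[ℚ] PadicAlgCl p)
    (τ : PadicAlgCl p ≃ₐ[ℚ_[p]] PadicAlgCl p) : ∃ σ : Gal, ∀ x, τ (ι x) = ι (σ x) := by
  have halg : Algebra.IsAlgebraic ℚ QBar := AlgebraicClosure.isAlgebraic ℚ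
  have hcl : IsAlgClosure ℚ QBar := ⟨inferInstance, halg⟩
  have hnor : Normal ℚ QBar := IsAlgClosure.normal ℚ QBar
  let _ : Algebra QBar (PadicAlgCl p) := ι.toRingHom.toAlgebra
  have hst : IsScalarTower ℚ QBar (PadicAlgCl p) :=
    IsScalarTower.of_algebraMap_eq (fun x => (ι.commutes x).symm)
  let τ' : PadicAlgCl p ≃ₐ[ℚ] PadicAlgCl p := τ.restrictScalars ℚ
  exact ⟨τ'.restrictNormal QBar, fun x => (AlgEquiv.restrictNormal_commutes τ' QBar x).symm⟩

theorem t_DSQ : S_DSQ := by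
  intro p _ ι X y hy h
  have hgal : IsGalois ℚ_[p] (PadicAlgCl p) := by
    unfold PadicAlgCl
    infer_instance
  have hfix : ι y ∈ Set.range (algebraMap ℚ_[p] (PadicAlgCl p)) := by
    rw [InfiniteGalois.mem_range_algebraMap_iff_fixed]
    intro τ
    obtain ⟨σ, hσ⟩ := exists_res ι τ
    rw [hσ, h σ ⟨τ, hσ⟩]
  obtain ⟨u, hu⟩ := hfix
  refine ⟨u, (algebraMap ℚ_[p] (PadicAlgCl p)).injective ?_⟩
  rw [map_mul, hu, ← map_mul, ← sq, hy, map_intCast, map_intCast]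

theorem t_SQ8 : S_SQ8 := by
  rintro X hX ⟨u, hu⟩
  have hn : ‖u‖ ≤ 1 := by
    have h1 : ‖u‖ * ‖u‖ ≤ 1 := by
      rw [← norm_mul, ← hu]
      exact Padic.norm_int_le_one X
    nlinarith [norm_nonneg u]
  let w : ℤ_[2] := ⟨u, hn⟩
  have hw : w * w = (X : ℤ_[2]) := by
    apply Subtype.ext
    rw [PadicInt.coe_intCast, hu]
    rfl
  have h2 := congrArg (PadicInt.toZModPow 3) hw
  rw [map_mul, map_intCast] at h2
  have h3 : ∀ z : ZMod (2 ^ 3), z * z = ((0 : ℤ) : ZMod (2 ^ 3)) ∨ z * z = ((1 : ℤ) : ZMod (2 ^ 3)) ∨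
      z * z = ((4 : ℤ) : ZMod (2 ^ 3)) := by decide
  have h4 : ¬ (4 : ℤ) ∣ X := by
    intro h
    have h5 := hX 2 (by rw [show (2 : ℤ) * 2 = 4 by norm_num]; exact h)
    rw [Int.isUnit_iff] at h5
    omega
  rcases h3 (PadicInt.toZModPow 3 w) with h | h | h
  · rw [h2, ZMod.intCast_eq_intCast_iff'] at h
    push_cast at h
    omega
  · rw [h2, ZMod.intCast_eq_intCast_iff'] at h
    push_cast at h
    omega
  · rw [h2, ZMod.intCast_eq_intCast_iff'] at h
    push_cast at h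
    omega

end Pool.Agent.NH5.SC.A1
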