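import Pool.Agent.NH5.SC.Stm

/-!
# SC-10: the value at a Frobenius element of a ramified prime
-/

set_option autoImplicit false

namespace Pool.Agent.NH5.SC.A10

open Pool.Agent.NH5.SC

theorem tw_mul (r : ℤ) (σ τ : Gal) : tw r (σ * τ) = tw r σ * tw r τ := by
  unfold tw
  rw [map_mul, mul_zpow, Units.val_mul]

theorem tw_one (r : ℤ) : tw r 1 = 1 := by
  unfold tw
  rw [map_one, one_zpow, Units.val_one]

theorem tw_of_cyc (r : ℤ) {σ : Gal} (h : cyc σ = 1) : tw r σ = 1 := by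
  unfold tw
  rw [h, one_zpow, Units.val_one]

theorem inv_apply_eq {σ : Gal} {x y : QBar} (h : σ x = y) : σ⁻¹ y = x := by
  rw [← h]
  have h1 : (σ⁻¹ * σ) x = x := by rw [inv_mul_cancel]; rfl
  exact h1

theorem t_VAL : S_VAL := by
  intro hQ hCOR hCYC ι s r c t hs hsgn hc ht hts
  have hC := hCOR hCYC ι s r c t hs hsgn hc ht hts
  obtain ⟨b, hb⟩ := hQ ι r _ hC
  refine ⟨b, ?_⟩
  intro p _ κ hp F hF hFs τ hτ hτs hcomm
  have hti : t⁻¹ s = -s := by
    have h1 : t (-s) = s := by rw [map_neg, hts, neg_neg]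
    exact inv_apply_eq h1
  have hτi : τ⁻¹ s = -s := by
    have h1 : τ (-s) = s := by rw [map_neg, hτs, neg_neg]
    exact inv_apply_eq h1
  have hFi : F⁻¹ s = s := inv_apply_eq hFs
  -- the elements
  obtain ⟨h, hh⟩ : ∃ h : Gal, h = t⁻¹ * F * t := ⟨_, rfl⟩
  obtain ⟨n, hn⟩ : ∃ n : Gal, n = t⁻¹ * τ := ⟨_, rfl⟩
  have hhs : h s = s := by
    rw [hh]
    change t⁻¹ (F (t s)) = s
    rw [hts, map_neg, hFs, map_neg, hti, neg_neg]
  have hns : n s = s := by
    rw [hn]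
    change t⁻¹ (τ s) = s
    rw [hτs, map_neg, hti, neg_neg]
  have hnis : n⁻¹ s = s := inv_apply_eq hns
  have hhns : (h * n) s = s := by
    change h (n s) = s
    rw [hns, hhs]
  -- the corestriction at F
  have e1 : c F + tw r t * c h = (tw r F - 1) * b := by
    have h1 := hb F
    unfold cor at h1
    rw [if_pos hFs] at h1
    rw [hh]
    exact h1
  -- twists
  have e2 : tw r h = tw r F := by
    rw [hh, tw_mul, tw_mul, mul_comm (tw r t⁻¹), mul_assoc, ← tw_mul, inv_mul_cancel, tw_one, mul_one]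
  have e3 : tw r n⁻¹ = tw r t := by
    have h1 : tw r τ = 1 := tw_of_cyc r (hCYC.2 p κ hp τ hτ)
    have h2 : tw r n = tw r t⁻¹ := by rw [hn, tw_mul, h1, mul_one]
    have h3 : tw r n⁻¹ * tw r n = 1 := by rw [← tw_mul, inv_mul_cancel, tw_one]
    have h4 : tw r t * tw r t⁻¹ = 1 := by rw [← tw_mul, mul_inv_cancel, tw_one]
    calc tw r n⁻¹ = tw r n⁻¹ * (tw r t * tw r t⁻¹) := by rw [h4, mul_one]
      _ = (tw r n⁻¹ * tw r n) * tw r t := by rw [h2]; ring
      _ = tw r t := by rw [h3, one_mul]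
  -- the cocycle
  have c1 : c 1 = 0 := by
    have h1 := hc.mul 1 1 rfl rfl
    rw [mul_one, tw_one, one_mul] at h1
    have h2 : c 1 + c 1 = c 1 + 0 := by rw [add_zero]; exact h1.symm
    exact add_left_cancel h2
  have c2 : c n⁻¹ = -(tw r n⁻¹ * c n) := by
    have h1 := hc.mul n⁻¹ n hnis hns
    rw [inv_mul_cancel, c1] at h1
    rw [eq_neg_iff_add_eq_zero]
    exact h1.symm
  have c3 : c (n⁻¹ * (h * n)) = tw r t * c h + tw r t * ((tw r F - 1) * c n) := by
    rw [hc.mul n⁻¹ (h * n) hnis hhns, hc.mul h n hhs hns, c2, e3, e2]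
    ring
  have e4 : n⁻¹ * (h * n) = F * (F⁻¹ * τ⁻¹ * F * τ) := by
    rw [hn, hh]
    group
  have hws : (F⁻¹ * τ⁻¹ * F * τ) s = s := by
    change F⁻¹ (τ⁻¹ (F (τ s))) = s
    rw [hτs, map_neg, hFs, map_neg, hτi, neg_neg, hFi]
  have c4 : c (n⁻¹ * (h * n)) = c F := by
    rw [e4, hc.mul F _ hFs hws, hc.away p κ hp _ hcomm hws, mul_zero, add_zero]
  rw [c4] at c3
  rw [← hn]
  linear_combination c3 + e1

end Pool.Agent.NH5.SC.A10
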