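import Pool.Agent.NH5.SC.Stm

/-!
# Project SC: the parity (SC-11)
-/

set_option autoImplicit false

namespace Pool.Agent.NH5.SC.A11

open Pool.Agent.NH5.SC

lemma sq_one : ∀ g : (ZMod (2 ^ 2))ˣ, g ^ 2 = 1 := by decide

lemma zpow_even (g : (ZMod (2 ^ 2))ˣ) (r : ℤ) (hr : r % 2 = 0) : g ^ r = 1 := by
  obtain ⟨k, hk⟩ : ∃ k : ℤ, r = 2 * k := ⟨r / 2, by omega⟩
  rw [hk, zpow_mul, zpow_ofNat, sq_one, one_zpow]

lemma zpow_odd (g : (ZMod (2 ^ 2))ˣ) (r : ℤ) (hr : r % 2 = 1) : g ^ r = g := by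
  obtain ⟨k, hk⟩ : ∃ k : ℤ, r = 2 * k + 1 := ⟨r / 2, by omega⟩
  rw [hk, zpow_add, zpow_mul, zpow_ofNat, sq_one, one_zpow, one_mul, zpow_one]

/-- the reduction modulo four of the powers -/
lemma red (u : ℤ_[2]ˣ) (r : ℤ) : PadicInt.toZModPow 2 ((u ^ r : ℤ_[2]ˣ) : ℤ_[2]) =
    (((Units.map (PadicInt.toZModPow (p := 2) 2).toMonoidHom u) ^ r : (ZMod (2 ^ 2))ˣ) :
      ZMod (2 ^ 2)) := by
  rw [← map_zpow]
  rfl

lemma dvd_of (y : ℤ_[2]) (h : PadicInt.toZModPow 2 y = 0) : ∃ w : ℤ_[2], y = 4 * w := by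
  have h1 : y ∈ RingHom.ker (PadicInt.toZModPow (p := 2) 2) := h
  rw [PadicInt.ker_toZModPow, Ideal.mem_span_singleton] at h1
  obtain ⟨w, hw⟩ := h1
  refine ⟨w, ?_⟩
  rw [hw]
  push_cast
  ring

lemma zero_of (y : ℤ_[2]) : PadicInt.toZMod (2 * y) = (0 : ZMod 2) := by
  rw [map_mul, map_ofNat]
  have : (OfNat.ofNat 2 : ZMod 2) = 0 := by decide
  rw [this, zero_mul]

/-- SC-11 -/
theorem t_PAR : S_PAR := by
  intro r p u x b hp hu hx
  have h2 : (2 : ℤ_[2]) ≠ 0 := by norm_num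
  constructor
  · intro h
    have h1 : PadicInt.toZModPow 2 ((u ^ r : ℤ_[2]ˣ) : ℤ_[2]) = 1 := by
      rw [red]
      rcases h with h | h
      · rw [zpow_even _ _ h, Units.val_one]
      · have h3 : Units.map (PadicInt.toZModPow (p := 2) 2).toMonoidHom u = 1 := by
          apply Units.ext
          show PadicInt.toZModPow 2 (u : ℤ_[2]) = 1
          rw [hu, map_natCast]
          have h4 : ((p : ℕ) : ZMod (2 ^ 2)) = ((1 : ℕ) : ZMod (2 ^ 2)) := by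
            rw [ZMod.natCast_eq_natCast_iff']
            exact h
          rw [h4, Nat.cast_one]
        rw [h3, one_zpow, Units.val_one]
    obtain ⟨w, hw⟩ := dvd_of (((u ^ r : ℤ_[2]ˣ) : ℤ_[2]) - 1) (by rw [map_sub, h1, map_one, sub_self])
    rw [hw] at hx
    have h5 : x = 2 * (w * b) := by
      apply mul_left_cancel₀ h2
      rw [hx]
      ring
    rw [h5]
    exact zero_of _
  · intro hr h
    have h1 : PadicInt.toZModPow 2 ((u ^ r : ℤ_[2]ˣ) : ℤ_[2]) = 3 := by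
      rw [red, zpow_odd _ _ hr]
      show PadicInt.toZModPow 2 (u : ℤ_[2]) = 3
      rw [hu, map_natCast]
      have h4 : ((p : ℕ) : ZMod (2 ^ 2)) = ((3 : ℕ) : ZMod (2 ^ 2)) := by
        rw [ZMod.natCast_eq_natCast_iff']
        exact h
      rw [h4]
      rfl
    obtain ⟨w, hw⟩ := dvd_of (((u ^ r : ℤ_[2]ˣ) : ℤ_[2]) - 3) (by rw [map_sub, h1, map_ofNat, sub_self])
    have h5 : x = b + 2 * (w * b) := by
      apply mul_left_cancel₀ h2
      have h6 : ((u ^ r : ℤ_[2]ˣ) : ℤ_[2]) = 3 + 4 * w := by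
        rw [← hw]
        ring
      rw [hx, h6]
      ring
    rw [h5, map_add, zero_of, add_zero]

end Pool.Agent.NH5.SC.A11
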