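import Pool.Agent.NH5.SC.Stm

/-! # SC-12 -/

set_option autoImplicit false

namespace Pool.Agent.NH5.SC.A12

open Pool.Agent.NH5.SC
open Finset

lemma ps_mod {q : ℕ} (h : q % 2 = 1) : ps q % 4 = 1 := by
  unfold ps
  split_ifs with h1 <;> omega

lemma ps_abs (q : ℕ) : (ps q).natAbs = q := by
  unfold ps
  split_ifs with h1 <;> omega

lemma prod_mod (S : Finset ℕ) (h : ∀ q ∈ S, q % 2 = 1) : (∏ q ∈ S, ps q) % 4 = 1 := by
  induction S using Finset.induction_on with
  | empty => rfl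
  | insert a S ha ih =>
    rw [prod_insert ha]
    have h1 := ps_mod (h a (mem_insert_self a S))
    have h2 := ih fun q hq => h q (mem_insert_of_mem hq)
    rw [Int.mul_emod, h1, h2]
    rfl

lemma prod_abs (S : Finset ℕ) : (∏ q ∈ S, ps q).natAbs = ∏ q ∈ S, q := by
  induction S using Finset.induction_on with
  | empty => rfl
  | insert a S ha ih => rw [prod_insert ha, prod_insert ha, Int.natAbs_mul, ps_abs, ih]

lemma eq_of_abs {a b : ℤ} (h : a.natAbs = b.natAbs) (ha : a % 4 = 1) (hb : b % 4 = 1) : a = b := by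
  omega

lemma odd_of {p : ℕ} (h : p.Prime ∧ p ≠ 2) : p % 2 = 1 := by
  rcases h.1.eq_two_or_odd with h1 | h1
  · exact absurd h1 h.2
  · exact h1

lemma sqf (N : Finset ℕ) (hN : ∀ p ∈ N, p.Prime) : Squarefree (∏ p ∈ N, p) := by
  induction N using Finset.induction_on with
  | empty =>
    rw [prod_empty]
    exact squarefree_one
  | insert a S ha ih =>
    rw [prod_insert ha, Nat.squarefree_mul]
    · exact ⟨(hN a (mem_insert_self a S)).squarefree, ih fun q hq => hN q (mem_insert_of_mem hq)⟩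
    · refine Nat.Coprime.prod_right fun q hq => ?_
      refine (Nat.coprime_primes (hN a (mem_insert_self a S)) (hN q (mem_insert_of_mem hq))).2 ?_
      rintro rfl
      exact ha hq

lemma abs_eq {N : Finset ℕ} (hN : ∀ p ∈ N, p.Prime) {x y : ℕ} (h : x * y = ∏ p ∈ N, p) :
    x = ∏ p ∈ N.filter (fun p => p ∣ x), p := by
  have hsq : Squarefree (∏ p ∈ N, p) := sqf N hN
  have hx : x ∣ ∏ p ∈ N, p := ⟨y, h.symm⟩
  have hsx : Squarefree x := hsq.squarefree_of_dvd hx
  have h1 : x.primeFactors = N.filter (fun p => p ∣ x) := by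
    ext p
    rw [mem_filter, Nat.mem_primeFactors]
    constructor
    · rintro ⟨hp, hpx, hx0⟩
      obtain ⟨q, hq, hpq⟩ := (Prime.dvd_finsetProd_iff hp.prime _).1 (hpx.trans hx)
      have : p = q := (Nat.prime_dvd_prime_iff_eq hp (hN q hq)).1 hpq
      exact ⟨this ▸ hq, hpx⟩
    · rintro ⟨hp, hpx⟩
      exact ⟨hN p hp, hpx, hsx.ne_zero⟩
  rw [← h1]
  exact (Nat.prod_primeFactors_of_squarefree hsx).symm

theorem t_REV : S_REV := by
  intro N hN h8 hK X Y hXY hX hs
  have hXY' : X.natAbs * Y.natAbs = ∏ p ∈ N, p := by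
    rw [← Int.natAbs_mul, hXY, Int.natAbs_neg, Int.natAbs_natCast]
    rfl
  have hX1 := abs_eq (fun p hp => (hN p hp).1) hXY'
  have hfil : N.filter (fun p => p ∣ X.natAbs) = N.filter (fun p : ℕ => (p : ℤ) ∣ X) := by
    refine filter_congr fun p _ => ?_
    exact Int.natCast_dvd.symm
  rw [hfil] at hX1
  obtain ⟨S, hS⟩ : ∃ S, S = N.filter (fun p : ℕ => (p : ℤ) ∣ X) := ⟨_, rfl⟩
  rw [← hS] at hX1
  have hSN : S ⊆ N := by
    rw [hS]
    exact filter_subset _ _
  have hY1 : Y.natAbs = ∏ p ∈ N \ S, p := by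
    have h1 : (∏ p ∈ N \ S, p) * ∏ p ∈ S, p = ∏ p ∈ N, p := prod_sdiff hSN
    have h2 : 0 < ∏ p ∈ S, p := prod_pos fun p hp => (hN p (hSN hp)).1.pos
    rw [hX1] at hXY'
    rw [← h1, mul_comm] at hXY'
    exact Nat.eq_of_mul_eq_mul_right h2 hXY'
  have hX2 : X = ∏ q ∈ S, ps q := by
    refine eq_of_abs ?_ (by omega) (prod_mod S fun q hq => odd_of (hN q (hSN hq)))
    rw [prod_abs, hX1]
  have hY4 : Y % 4 = 1 := by
    have h1 : (X * Y) % 4 = 1 := by
      rw [hXY]
      omega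
    have h2 : X % 4 = 1 := by omega
    rw [Int.mul_emod, h2, one_mul] at h1
    omega
  have hY2 : Y = ∏ q ∈ N \ S, ps q := by
    refine eq_of_abs ?_ hY4 (prod_mod _ fun q hq => odd_of (hN q (mem_sdiff.1 hq).1))
    rw [prod_abs, hY1]
  have hgen : ∀ p ∈ N, genS N S p = 1 := by
    intro p hp
    unfold genS
    by_cases h : p ∈ S
    · rw [if_pos h, ← hY2]
      have h' := h
      rw [hS, mem_filter] at h'
      exact (hs p hp).2 h'.2
    · rw [if_neg h, ← hX2]
      refine (hs p hp).1 fun h2 => h ?_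
      rw [hS, mem_filter]
      exact ⟨hp, h2⟩
  rcases hK S hSN hgen with h | h
  · rw [hX2, h, prod_empty]
  · exfalso
    rw [h, Finset.sdiff_self, prod_empty] at hY2
    rw [hY2, mul_one] at hXY
    omega

end Pool.Agent.NH5.SC.A12
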