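import Pool.Agent.NH5.SC.Stm

/-!
# SC-13 (helper23): the arithmetic of the odd twists
-/

set_option autoImplicit false

namespace Pool.Agent.NH5.SC.A13

open Pool.Agent.NH5.SC
open scoped NumberTheorySymbols

theorem jac_prod (z : ℤ) (T : Finset ℕ) (h0 : ∀ p ∈ T, p ≠ 0) (h1 : ∀ p ∈ T, jacobiSym z p = 1) :
    jacobiSym z (pr T) = 1 := by
  unfold pr
  induction T using Finset.induction_on with
  | empty => simp
  | insert a s ha ih =>
    rw [Finset.prod_insert ha]
    have : NeZero a := ⟨h0 a (Finset.mem_insert_self _ _)⟩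
    have : NeZero (∏ p ∈ s, p) :=
      ⟨Finset.prod_ne_zero_iff.2 fun p hp => h0 p (Finset.mem_insert_of_mem hp)⟩
    rw [jacobiSym.mul_right, h1 a (Finset.mem_insert_self _ _),
      ih (fun p hp => h0 p (Finset.mem_insert_of_mem hp))
        (fun p hp => h1 p (Finset.mem_insert_of_mem hp)), one_mul]

/-- the divisors -/
theorem split {N : Finset ℕ} (hN : ∀ p ∈ N, p.Prime ∧ p ≠ 2) {X Y : ℤ} (h : X * Y = -(pr N : ℤ)) :
    ∃ (S : Finset ℕ) (e : ℤ), S ⊆ N ∧ (e = 1 ∨ e = -1) ∧ X = e * (pr S : ℤ) ∧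
      Y = -e * (pr (N \ S) : ℤ) ∧ (∀ p ∈ S, (p : ℤ) ∣ X) ∧ ∀ p ∈ N \ S, ¬ (p : ℤ) ∣ X := by
  classical
  set S := N.filter (fun p : ℕ => (p : ℤ) ∣ X) with hS
  have hSN : S ⊆ N := Finset.filter_subset _ _
  have hXp : ∀ p ∈ S, (p : ℤ) ∣ X := fun p hp => (Finset.mem_filter.1 hp).2
  have hXn : ∀ p ∈ N \ S, ¬ (p : ℤ) ∣ X := by
    intro p hp hd
    rw [Finset.mem_sdiff] at hp
    exact hp.2 (Finset.mem_filter.2 ⟨hp.1, hd⟩)
  have hab : pr (N \ S) * pr S = pr N := Finset.prod_sdiff hSN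
  have hpos : ∀ T ⊆ N, (0 : ℤ) < pr T := by
    intro T hT
    have : 0 < pr T := Finset.prod_pos fun p hp => (hN p (hT hp)).1.pos
    exact_mod_cast this
  have hdiv : ∀ T ⊆ N, ∀ Z : ℤ, (∀ p ∈ T, (p : ℤ) ∣ Z) → (pr T : ℤ) ∣ Z := by
    intro T hT Z hZ
    have h1 : pr T ∣ Z.natAbs := by
      unfold pr
      apply Finset.prod_primes_dvd
      · intro p hp
        exact (hN p (hT hp)).1.prime
      · intro p hp
        have := Int.natAbs_dvd_natAbs.2 (hZ p hp)
        simpa using this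
    exact Int.natCast_dvd.2 h1
  obtain ⟨x, hx⟩ := hdiv S hSN X hXp
  have hYp : ∀ p ∈ N \ S, (p : ℤ) ∣ Y := by
    intro p hp
    have hpN := Finset.sdiff_subset hp
    have h1 : (p : ℤ) ∣ X * Y := by
      rw [h, dvd_neg]
      exact_mod_cast Finset.dvd_prod_of_mem (fun q : ℕ => q) hpN
    have hpp : Prime (p : ℤ) := Nat.prime_iff_prime_int.1 (hN p hpN).1
    exact (hpp.dvd_or_dvd h1).resolve_left (hXn p hp)
  obtain ⟨y, hy⟩ := hdiv (N \ S) Finset.sdiff_subset Y hYp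
  have hab' : (pr (N \ S) : ℤ) * pr S = pr N := by exact_mod_cast hab
  have hxy : x * y = -1 := by
    have h1 : ((pr (N \ S) : ℤ) * pr S) * (x * y) = ((pr (N \ S) : ℤ) * pr S) * (-1) := by
      rw [hx, hy] at h
      linear_combination h + hab'
    exact mul_left_cancel₀ (mul_ne_zero (hpos _ Finset.sdiff_subset).ne' (hpos _ hSN).ne') h1
  have hx1 : x = 1 ∨ x = -1 := Int.isUnit_iff.1 (IsUnit.of_mul_eq_one (-y) (by linear_combination -hxy))
  refine ⟨S, x, hSN, hx1, by rw [hx]; ring, ?_, hXp, hXn⟩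
  rw [hy]
  rcases hx1 with h1 | h1
  · rw [h1] at hxy ⊢
    linear_combination (pr (N \ S) : ℤ) * hxy
  · rw [h1] at hxy ⊢
    linear_combination -(pr (N \ S) : ℤ) * hxy

/-- reciprocity -/
theorem recip {a b : ℕ} (hab : a * b % 4 = 3) (h1 : jacobiSym (-(a : ℤ)) b = 1)
    (h2 : jacobiSym (-(b : ℤ)) a = 1) : False := by
  have key : ∀ {a b : ℕ}, a % 4 = 1 → b % 4 = 3 → jacobiSym (-(a : ℤ)) b = 1 →
      jacobiSym (-(b : ℤ)) a = 1 → False := by
    intro a b ha hb h1 h2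
    have hao : Odd a := Nat.odd_iff.2 (by omega)
    have hbo : Odd b := Nat.odd_iff.2 (by omega)
    rw [jacobiSym.neg _ hbo, ZMod.χ₄_nat_three_mod_four hb] at h1
    rw [jacobiSym.neg _ hao, ZMod.χ₄_nat_one_mod_four ha, one_mul] at h2
    rw [jacobiSym.quadratic_reciprocity_one_mod_four ha hbo, h2] at h1
    norm_num at h1
  have h3 : (a % 4) * (b % 4) % 4 = 3 := by rw [← Nat.mul_mod]; exact hab
  have h4 : a % 4 < 4 := Nat.mod_lt _ (by norm_num)
  have h5 : b % 4 < 4 := Nat.mod_lt _ (by norm_num)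
  have h6 : (a % 4 = 1 ∧ b % 4 = 3) ∨ (a % 4 = 3 ∧ b % 4 = 1) := by
    generalize a % 4 = u at *
    generalize b % 4 = v at *
    interval_cases u <;> interval_cases v <;> simp_all
  rcases h6 with ⟨h7, h8⟩ | ⟨h7, h8⟩
  · exact key h7 h8 h1 h2
  · exact key h8 h7 h2 h1

theorem t_ROD : S_ROD := by
  classical
  intro N hN h8 hK X Y hXY hX8 hor
  obtain ⟨S, e, hSN, he, hX, hY, hd, hnd⟩ := split hN hXY
  have hab : pr (N \ S) * pr S = pr N := Finset.prod_sdiff hSN
  -- the sign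
  have h1 : ∃ f : ℤ, (f = 1 ∨ f = -1) ∧ (∀ p ∈ N \ S, jacobiSym (f * (pr S : ℤ)) p = 1) ∧
      ∀ p ∈ S, jacobiSym (f * (pr (N \ S) : ℤ)) p = 1 := by
    rcases hor with h | h
    · refine ⟨e, he, fun p hp => ?_, fun p hp => ?_⟩
      · rw [← hX]
        exact (h p (Finset.sdiff_subset hp)).1 (hnd p hp)
      · have := (h p (hSN hp)).2 (hd p hp)
        rwa [hY, show -(-e * (pr (N \ S) : ℤ)) = e * (pr (N \ S) : ℤ) by ring] at this
    · refine ⟨-e, by rcases he with h | h <;> simp [h], fun p hp => ?_, fun p hp => ?_⟩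
      · have := (h p (Finset.sdiff_subset hp)).1 (hnd p hp)
        rwa [hX, show -(e * (pr S : ℤ)) = -e * (pr S : ℤ) by ring] at this
      · rw [← hY]
        exact (h p (hSN hp)).2 (hd p hp)
  obtain ⟨f, hf, hf1, hf2⟩ := h1
  rcases hf with rfl | rfl
  · have h2 : ∀ p ∈ N, gen N S p = 1 := by
      intro p hp
      unfold gen
      by_cases hpS : p ∈ S
      · rw [if_pos hpS]
        simpa using hf2 p hpS
      · rw [if_neg hpS]
        simpa using hf1 p (Finset.mem_sdiff.2 ⟨hp, hpS⟩)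
    rcases hK S hSN h2 with h3 | h3
    · rw [h3] at hX
      have h4 : pr ∅ = 1 := Finset.prod_empty
      rw [h4] at hX
      rcases he with h5 | h5
      · rw [hX, h5]; norm_num
      · exfalso
        rw [hX, h5] at hX8
        norm_num at hX8
    · exfalso
      rw [h3] at hX
      rcases he with h5 | h5
      · rw [h5, one_mul] at hX
        omega
      · rw [h5] at hX
        omega
  · exfalso
    have h2 : jacobiSym (-((pr S : ℕ) : ℤ)) (pr (N \ S)) = 1 := by
      apply jac_prod _ _ (fun p hp => (hN p (Finset.sdiff_subset hp)).1.ne_zero)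
      intro p hp
      have := hf1 p hp
      rwa [neg_one_mul] at this
    have h3 : jacobiSym (-((pr (N \ S) : ℕ) : ℤ)) (pr S) = 1 := by
      apply jac_prod _ _ (fun p hp => (hN p (hSN hp)).1.ne_zero)
      intro p hp
      have := hf2 p hp
      rwa [neg_one_mul] at this
    exact recip (by rw [mul_comm, hab]; omega) h2 h3

end Pool.Agent.NH5.SC.A13
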