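import Pool.Agent.NH5.SC.Stm
import Pool.Agent.Y715.Nr

/-!
# SC-2: ramification of `√X` at the odd primes dividing `X`
-/

set_option autoImplicit false

namespace Pool.Agent.NH5.SC.A2

open Pool.Agent.NH5.SC Pool.Agent.Y715.Nr Pool.Agent.W237.RK

/-- integers prime to `p` are units -/
lemma norm_int {p : ℕ} [Fact p.Prime] {w : ℤ} (hw : ¬ (p : ℤ) ∣ w) : ‖(w : PadicAlgCl p)‖ = 1 := by
  have h1 : ‖(w : ℚ_[p])‖ = 1 := by
    have h2 : ¬ ‖(w : ℚ_[p])‖ < 1 := fun h => hw (Padic.norm_intCast_lt_one_iff.1 h)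
    exact le_antisymm (Padic.norm_int_le_one w) (not_lt.1 h2)
  have h3 : (w : PadicAlgCl p) = algebraMap ℚ_[p] (PadicAlgCl p) (w : ℚ_[p]) := (map_intCast _ w).symm
  rw [h3]
  exact (PadicAlgCl.norm_extends p _).trans h1

/-- `QBar` is normal over `ℚ` -/
lemma normalQ : Normal ℚ QBar := by
  have h := @IsAlgClosure.normal ℚ (AlgebraicClosure ℚ) _ _ (AlgebraicClosure.instAlgebra ℚ) _
  convert h
  exact Subsingleton.elim _ _

theorem t_RAM : S_RAM := by
  intro p _ ι X y hp2 hy hpX hX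
  have hpp : p.Prime := Fact.out
  obtain ⟨w, rfl⟩ := hpX
  have hw : ¬ (p : ℤ) ∣ w := by
    rintro ⟨v, rfl⟩
    have h1 : (p : ℤ) * p ∣ (p : ℤ) * (p * v) := ⟨v, by ring⟩
    have h2 := hX _ h1
    have h3 : (p : ℤ).natAbs = 1 := Int.isUnit_iff_natAbs_eq.1 h2
    rw [Int.natAbs_natCast] at h3
    exact hpp.one_lt.ne' h3
  have hιy : (ι y) ^ 2 = (p : PadicAlgCl p) * (w : PadicAlgCl p) := by
    rw [← map_pow, hy]
    push_cast
    rw [map_mul, map_natCast, map_intCast]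
  have hn : ‖ι y‖ ^ 2 = (p : ℝ)⁻¹ := by
    rw [← norm_pow, hιy, norm_mul, norm_int hw, mul_one, Pool.Agent.W571.RK.norm_p_Om]
  have hp0 : (0 : ℝ) < p := by exact_mod_cast hpp.pos
  have hp1 : (1 : ℝ) < p := by exact_mod_cast hpp.one_lt
  have hy0 : ι y ≠ 0 := by
    intro h
    rw [h, norm_zero] at hn
    have : (0 : ℝ) < (p : ℝ)⁻¹ := inv_pos.2 hp0
    norm_num at hn
    exact hp0.ne' (by exact_mod_cast hn.symm)
  -- some automorphism over the maximal unramified extension moves `ι y`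
  have hex : ∃ τ : Au p, (∀ x ∈ kur p, τ x = x) ∧ τ (ι y) ≠ ι y := by
    by_contra hcon
    push Not at hcon
    obtain ⟨m, hm⟩ := norm_ne hy0 (mem_kur hcon)
    rw [hm] at hn
    have h5 : (p : ℝ) ^ (m * 2) = (p : ℝ) ^ (-1 : ℤ) := by
      rw [zpow_mul, zpow_neg_one]
      exact_mod_cast hn
    have h6 : m * 2 = -1 := zpow_right_injective₀ hp0 hp1.ne' h5
    omega
  obtain ⟨τ, hτ, hne⟩ := hex
  have hneg : τ (ι y) = -ι y := by
    have h : (τ (ι y)) ^ 2 = (ι y) ^ 2 := by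
      rw [← map_pow, hιy, map_mul, map_natCast, map_intCast]
    rcases sq_eq_sq_iff_eq_or_eq_neg.1 h with h1 | h1
    · exact absurd h1 hne
    · exact h1
  let _ : Algebra QBar (PadicAlgCl p) := ι.toRingHom.toAlgebra
  have _ : IsScalarTower ℚ QBar (PadicAlgCl p) :=
    IsScalarTower.of_algebraMap_eq (fun x => (ι.commutes x).symm)
  have _ : Normal ℚ QBar := normalQ
  let τ' : PadicAlgCl p ≃ₐ[ℚ] PadicAlgCl p := τ.restrictScalars ℚ
  let σ : Gal := τ'.restrictNormal QBar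
  have hσ : ∀ x, τ (ι x) = ι (σ x) := fun x => (AlgEquiv.restrictNormal_commutes τ' QBar x).symm
  refine ⟨σ, ⟨τ, hσ, inert_of_kur hτ⟩, ?_⟩
  have h7 : ι (σ y) = ι (-y) := by rw [← hσ, hneg, map_neg]
  exact ι.injective h7

end Pool.Agent.NH5.SC.A2
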