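import Pool.Agent.NH5.SC.Stm

/-!
# Job SC-3: roots of units and roots of unity under the inertia groups
-/

set_option autoImplicit false

namespace Pool.Agent.NH5.SC.A3

open Pool.Agent.NH5.SC

instance enough (i : ℕ) : HasEnoughRootsOfUnity QBar (2 ^ i) := by
  have : NeZero ((2 ^ i : ℕ) : QBar) := ⟨by push_cast; exact pow_ne_zero _ two_ne_zero⟩
  infer_instance

section

variable {p : ℕ} [Fact p.Prime]

lemma norm_int {n : ℤ} (hn : ¬ (p : ℤ) ∣ n) : ‖(n : PadicAlgCl p)‖ = 1 := by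
  have h := PadicAlgCl.norm_extends p (n : ℚ_[p])
  have e : algebraMap ℚ_[p] (PadicAlgCl p) (n : ℚ_[p]) = (n : PadicAlgCl p) :=
    map_intCast (algebraMap ℚ_[p] (PadicAlgCl p)) n
  have h1 : ‖(n : ℚ_[p])‖ = 1 := by
    refine le_antisymm (Padic.norm_int_le_one n) (not_lt.1 fun h2 => ?_)
    exact hn (Padic.norm_intCast_lt_one_iff.1 h2)
  rw [h1] at h
  rw [← e]
  exact h

lemma norm_two (hp : p ≠ 2) : ‖(2 : PadicAlgCl p)‖ = 1 := by
  have h : ¬ (p : ℤ) ∣ 2 := by
    intro h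
    have h1 : p ∣ 2 := by exact_mod_cast h
    exact hp ((Nat.prime_dvd_prime_iff_eq Fact.out Nat.prime_two).1 h1)
  have := norm_int h
  exact_mod_cast this

/-- the roots of unity are fixed by the inertia groups of the odd primes -/
lemma root_fix (hp : p ≠ 2) {τ : PadicAlgCl p ≃ₐ[ℚ_[p]] PadicAlgCl p}
    (hin : ∀ z : PadicAlgCl p, ‖z‖ ≤ 1 → ‖τ z - z‖ < 1) (n : ℕ) :
    ∀ z : PadicAlgCl p, z ^ 2 ^ n = 1 → τ z = z := by
  intro z hz
  have hz0 : z ≠ 0 := by
    rintro rfl
    rw [zero_pow (by positivity)] at hz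
    exact zero_ne_one hz
  have hnorm : ∀ y : PadicAlgCl p, y ^ 2 ^ n = 1 → ‖y‖ = 1 := by
    intro y hy
    have h1 := congrArg norm hy
    rw [norm_pow, norm_one] at h1
    exact (pow_eq_one_iff_of_nonneg (norm_nonneg _) (by positivity)).1 h1
  have hz1 : ‖z‖ = 1 := hnorm z hz
  have hτz1 : ‖τ z‖ = 1 := hnorm (τ z) (by rw [← map_pow, hz, map_one])
  set u := τ z / z with hu
  have hu1 : u ^ 2 ^ n = 1 := by
    rw [hu, div_pow, ← map_pow, hz, map_one, div_one]
  have hu2 : ‖u - 1‖ < 1 := by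
    have h1 := hin z hz1.le
    have e : u - 1 = (τ z - z) / z := by rw [hu]; field_simp
    rw [e, norm_div, hz1, div_one]
    exact h1
  have key : ∀ m : ℕ, u ^ 2 ^ m = 1 → u = 1 := by
    intro m
    induction m with
    | zero =>
      intro h
      simpa using h
    | succ m ih =>
      intro h
      apply ih
      have h1 : (u ^ 2 ^ m) ^ 2 = 1 := by rw [← pow_mul, ← pow_succ, h]
      rcases sq_eq_one_iff.1 h1 with h2 | h2
      · exact h2
      · exfalso
        have h3 : ‖u ^ 2 ^ m - 1‖ < 1 := by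
          have hun : ‖u‖ = 1 := by rw [hu, norm_div, hτz1, hz1, div_one]
          -- the quotient is integral
          have h4 : u ^ 2 ^ m - 1 = (u - 1) * ∑ i ∈ Finset.range (2 ^ m), u ^ i := by
            rw [mul_comm, geom_sum_mul]
          rw [h4, norm_mul]
          have h5 : ‖∑ i ∈ Finset.range (2 ^ m), u ^ i‖ ≤ 1 := by
            apply IsUltrametricDist.norm_sum_le_of_forall_le_of_nonneg (by norm_num)
            intro i _
            rw [norm_pow, hun, one_pow]
          calc ‖u - 1‖ * _ ≤ ‖u - 1‖ * 1 := mul_le_mul_of_nonneg_left h5 (norm_nonneg _)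
            _ < 1 := by rwa [mul_one]
        rw [h2] at h3
        have e : (-1 - 1 : PadicAlgCl p) = -2 := by norm_num
        rw [e, norm_neg, norm_two hp] at h3
        exact lt_irrefl _ h3
  have h1 := key n hu1
  rw [hu, div_eq_one_iff_eq hz0] at h1
  exact h1

end

lemma cyc_spec (σ : Gal) {n : ℕ} {t : QBar} (ht : t ^ 2 ^ n = 1) :
    σ t = t ^ (((cyc σ : ℤ_[2]ˣ) : ℤ_[2]).toZModPow n).val :=
  cyclotomicCharacter.spec (L := QBar) 2 (n := n) (MulSemiringAction.toRingAut Gal QBar σ) t ht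

theorem t_UNR : S_UNR := by
  intro p _ ι X y hp hy hX σ hσ
  obtain ⟨τ, hτ, hin⟩ := hσ
  have h1 : (σ y - y) * (σ y + y) = 0 := by
    have h2 : (σ y) ^ 2 = (X : QBar) := by rw [← map_pow, hy, map_intCast]
    linear_combination h2 - hy
  rcases mul_eq_zero.1 h1 with h | h
  · exact sub_eq_zero.1 h
  · exfalso
    have h2 : σ y = -y := eq_neg_of_add_eq_zero_left h
    have h3 : ‖ι y‖ = 1 := by
      have h4 : (ι y) ^ 2 = (X : PadicAlgCl p) := by rw [← map_pow, hy, map_intCast]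
      have h5 := congrArg norm h4
      rw [norm_pow, norm_int hX] at h5
      exact (pow_eq_one_iff_of_nonneg (norm_nonneg _) two_ne_zero).1 h5
    have h6 := hin (ι y) h3.le
    have e : τ (ι y) - ι y = -(2 * ι y) := by
      rw [hτ, h2, map_neg]
      ring
    rw [e, norm_neg, norm_mul, norm_two hp, h3, mul_one] at h6
    exact lt_irrefl _ h6

theorem t_CYC : S_CYC := by
  refine ⟨cyclotomicCharacter.continuous 2 ℚ QBar, ?_⟩
  intro p _ ι hp σ hσ
  obtain ⟨τ, hτ, hin⟩ := hσ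
  apply Units.ext
  apply PadicInt.ext_of_toZModPow.mp
  intro n
  obtain ⟨ζ, hζ⟩ := HasEnoughRootsOfUnity.exists_primitiveRoot QBar (2 ^ n)
  have h1 : σ ζ = ζ := by
    apply ι.injective
    show ι (σ ζ) = ι ζ
    rw [← hτ]
    exact root_fix hp hin n (ι ζ) (by rw [← map_pow, hζ.pow_eq_one, map_one])
  have h2 := cyc_spec σ hζ.pow_eq_one
  rw [h1] at h2
  rw [Units.val_one, map_one]
  rcases Nat.eq_zero_or_pos n with rfl | hn
  · have : Subsingleton (ZMod (2 ^ 0)) := by rw [pow_zero]; infer_instance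
    exact Subsingleton.elim _ _
  have h3 : (1 : ℕ) < 2 ^ n := Nat.one_lt_two_pow (by omega)
  have h4 : (((cyc σ : ℤ_[2]ˣ) : ℤ_[2]).toZModPow n).val = 1 := by
    apply hζ.pow_inj (ZMod.val_lt _) h3
    rw [← h2, pow_one]
  have : Fact (1 < 2 ^ n) := ⟨h3⟩
  apply ZMod.val_injective
  rw [h4, ZMod.val_one]

end Pool.Agent.NH5.SC.A3
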