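import Pool.Agent.NH5.SC.A4F

/-!
SC-4: a Frobenius element which fixes the square root of a ramified discriminant.
-/

set_option autoImplicit false

namespace Pool.Agent.NH5.SC.A4

open Pool.Agent.NH5.SC

section

variable {p : ℕ} [Fact p.Prime]

theorem nrm (τ : PadicAlgCl p ≃ₐ[ℚ_[p]] PadicAlgCl p) (x : PadicAlgCl p) : ‖τ x‖ = ‖x‖ := by
  rw [← PadicAlgCl.spectralNorm_eq, ← PadicAlgCl.spectralNorm_eq]
  exact (spectralNorm_eq_of_equiv τ x).symm

theorem exists_cmp (ι : QBar →ₐ[ℚ] PadicAlgCl p) (τ : PadicAlgCl p ≃ₐ[ℚ_[p]] PadicAlgCl p) :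
    ∃ σ : Gal, ∀ x, τ (ι x) = ι (σ x) := by
  have hA : Algebra.IsAlgebraic ℚ QBar := AlgebraicClosure.isAlgebraic ℚ
  have hC : IsAlgClosure ℚ QBar := ⟨inferInstance, inferInstance⟩
  have hN : Normal ℚ QBar := IsAlgClosure.normal ℚ QBar
  let _ : Algebra QBar (PadicAlgCl p) := ι.toRingHom.toAlgebra
  have hst : IsScalarTower ℚ QBar (PadicAlgCl p) :=
    IsScalarTower.of_algebraMap_eq (fun x => (ι.commutes x).symm)
  let τ' : PadicAlgCl p ≃ₐ[ℚ] PadicAlgCl p := τ.restrictScalars ℚ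
  exact ⟨τ'.restrictNormal QBar, fun x => (AlgEquiv.restrictNormal_commutes τ' QBar x).symm⟩

theorem norm_two (hp : p ≠ 2) : ‖(2 : PadicAlgCl p)‖ = 1 := by
  have h1 := norm_alg (p := p) (2 : ℤ_[p])
  rw [map_ofNat] at h1
  rw [h1]
  have h2 : ‖((2 : ℕ) : ℤ_[p])‖ = 1 := by
    rw [PadicInt.norm_natCast_eq_one_iff]
    exact (Nat.coprime_primes (Fact.out : p.Prime) Nat.prime_two).2 hp
  exact_mod_cast h2

/-- a root of unity of order a power of two close to one is one -/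
theorem root_one (hp : p ≠ 2) {u : PadicAlgCl p} (hu : ‖u - 1‖ < 1) (n : ℕ)
    (hun : u ^ 2 ^ n = 1) : u = 1 := by
  have hu1 : ‖u‖ = 1 := by
    have h1 := congrArg norm hun
    rw [norm_pow, norm_one] at h1
    exact (pow_eq_one_iff_of_nonneg (norm_nonneg _) (by positivity)).1 h1
  have key : ∀ m : ℕ, u ^ 2 ^ m = 1 → u = 1 := by
    intro m
    induction m with
    | zero =>
      intro h
      simpa using h
    | succ m ih =>
      intro h
      apply ih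
      have h1 : (u ^ 2 ^ m) ^ 2 = 1 := by rw [← pow_mul, ← pow_succ, h]
      rcases sq_eq_one_iff.1 h1 with h2 | h2
      · exact h2
      · exfalso
        have h3 : ‖u ^ 2 ^ m - 1‖ < 1 := by
          have h4 : u ^ 2 ^ m - 1 = (u - 1) * ∑ i ∈ Finset.range (2 ^ m), u ^ i := by
            rw [mul_comm, geom_sum_mul]
          rw [h4, norm_mul]
          have h5 : ‖∑ i ∈ Finset.range (2 ^ m), u ^ i‖ ≤ 1 := by
            apply IsUltrametricDist.norm_sum_le_of_forall_le_of_nonneg (by norm_num)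
            intro i _
            rw [norm_pow, hu1, one_pow]
          calc ‖u - 1‖ * _ ≤ ‖u - 1‖ * 1 := mul_le_mul_of_nonneg_left h5 (norm_nonneg _)
            _ < 1 := by rwa [mul_one]
        rw [h2] at h3
        have e : (-1 - 1 : PadicAlgCl p) = -2 := by norm_num
        rw [e, norm_neg, norm_two hp] at h3
        exact lt_irrefl _ h3
  exact key n hun

/-- a Frobenius element acts on the roots of unity of order a power of two by `z ↦ z ^ p` -/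
theorem phi_root (hp : p ≠ 2) {φ : PadicAlgCl p ≃ₐ[ℚ_[p]] PadicAlgCl p}
    (hφ : ∀ z : PadicAlgCl p, IsIntegral ℤ_[p] z → ‖φ z - z ^ p‖ < 1) {z : PadicAlgCl p} {n : ℕ}
    (hz : z ^ 2 ^ n = 1) : φ z = z ^ p := by
  have hz0 : z ≠ 0 := by
    rintro rfl
    rw [zero_pow (by positivity)] at hz
    exact zero_ne_one hz
  have hz1 : ‖z‖ = 1 := by
    have h1 := congrArg norm hz
    rw [norm_pow, norm_one] at h1
    exact (pow_eq_one_iff_of_nonneg (norm_nonneg _) (by positivity)).1 h1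
  have hint : IsIntegral ℤ_[p] z := by
    refine IsIntegral.of_pow (n := 2 ^ n) (by positivity) ?_
    rw [hz]
    exact isIntegral_one
  have hzp : z ^ p ≠ 0 := pow_ne_zero _ hz0
  have hu1 : (φ z / z ^ p) ^ 2 ^ n = 1 := by
    rw [div_pow, ← map_pow, hz, map_one, ← pow_mul, mul_comm, pow_mul, hz, one_pow, div_one]
  have hu2 : ‖φ z / z ^ p - 1‖ < 1 := by
    have e : φ z / z ^ p - 1 = (φ z - z ^ p) / z ^ p := by field_simp
    rw [e, norm_div, norm_pow, hz1, one_pow, div_one]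
    exact hφ z hint
  have h1 := root_one hp hu2 n hu1
  rwa [div_eq_one_iff_eq hzp] at h1

end

instance enough (i : ℕ) : HasEnoughRootsOfUnity QBar (2 ^ i) := by
  have : NeZero ((2 ^ i : ℕ) : QBar) := ⟨by push_cast; exact pow_ne_zero _ two_ne_zero⟩
  infer_instance

theorem cyc_spec (σ : Gal) {n : ℕ} {t : QBar} (ht : t ^ 2 ^ n = 1) :
    σ t = t ^ (((cyc σ : ℤ_[2]ˣ) : ℤ_[2]).toZModPow n).val :=
  cyclotomicCharacter.spec (L := QBar) 2 (n := n) (MulSemiringAction.toRingAut Gal QBar σ) t ht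

theorem cyc_eq {p : ℕ} {F : Gal} (h : ∀ (n : ℕ) (t : QBar), t ^ 2 ^ n = 1 → F t = t ^ p) :
    ((cyc F : ℤ_[2]ˣ) : ℤ_[2]) = (p : ℤ_[2]) := by
  apply PadicInt.ext_of_toZModPow.mp
  intro n
  obtain ⟨ζ, hζ⟩ := HasEnoughRootsOfUnity.exists_primitiveRoot QBar (2 ^ n)
  have h1 := h n ζ hζ.pow_eq_one
  have h2 := cyc_spec F hζ.pow_eq_one
  rw [h1] at h2
  have : NeZero (2 ^ n) := ⟨by positivity⟩
  have hpos : 0 < 2 ^ n := by positivity
  rw [pow_eq_pow_mod p hζ.pow_eq_one] at h2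
  have h3 := hζ.pow_inj (Nat.mod_lt _ hpos) (ZMod.val_lt _) h2
  have h4 := congrArg (fun a : ℕ => (a : ZMod (2 ^ n))) h3
  simp only [ZMod.natCast_mod, ZMod.natCast_val, ZMod.cast_id', id] at h4
  rw [← h4, map_natCast]

section

variable {p : ℕ} [Fact p.Prime]

theorem norm_intc (X : ℤ) (h : ¬ (p : ℤ) ∣ X) : ‖(X : PadicAlgCl p)‖ = 1 := by
  have h1 := norm_alg (p := p) (X : ℤ_[p])
  rw [map_intCast] at h1
  rw [h1]
  by_contra h2
  have h3 : ‖(X : ℤ_[p])‖ < 1 := lt_of_le_of_ne (PadicInt.norm_le_one _) h2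
  exact h (PadicInt.norm_int_lt_one_iff_dvd X |>.1 h3)

theorem norm_intc_lt (X : ℤ) (h : (p : ℤ) ∣ X) : ‖(X : PadicAlgCl p)‖ < 1 := by
  have h1 := norm_alg (p := p) (X : ℤ_[p])
  rw [map_intCast] at h1
  rw [h1]
  exact PadicInt.norm_int_lt_one_iff_dvd X |>.2 h

/-- the action on square roots of units -/
theorem phi_sqrt (hp : p ≠ 2) {φ : PadicAlgCl p ≃ₐ[ℚ_[p]] PadicAlgCl p}
    (hφ : ∀ z : PadicAlgCl p, IsIntegral ℤ_[p] z → ‖φ z - z ^ p‖ < 1) {Y : PadicAlgCl p} {X : ℤ}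
    (hY : Y ^ 2 = (X : PadicAlgCl p)) (hX : ¬ (p : ℤ) ∣ X) : φ Y = Y ↔ jacobiSym X p = 1 := by
  have hp' : p.Prime := Fact.out
  have hY1 : ‖Y‖ = 1 := by
    have h1 := congrArg norm hY
    rw [norm_pow, norm_intc X hX] at h1
    exact (pow_eq_one_iff_of_nonneg (norm_nonneg _) two_ne_zero).1 h1
  have hint : IsIntegral ℤ_[p] Y := by
    refine IsIntegral.of_pow (n := 2) two_pos ?_
    rw [hY]
    have : (X : PadicAlgCl p) = algebraMap ℤ_[p] (PadicAlgCl p) (X : ℤ_[p]) := by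
      rw [map_intCast]
    rw [this]
    exact isIntegral_algebraMap
  have h1 := hφ Y hint
  have hodd : p = 2 * (p / 2) + 1 := by
    have := hp'.eq_two_or_odd.resolve_left hp
    omega
  have hYp : Y ^ p = Y * ((X ^ (p / 2) : ℤ) : PadicAlgCl p) := by
    have e : Y ^ p = Y ^ (2 * (p / 2) + 1) := by rw [← hodd]
    rw [e, pow_succ, pow_mul, hY, Int.cast_pow, mul_comm]
  have hε : (p : ℤ) ∣ X ^ (p / 2) - legendreSym p X := by
    rw [← ZMod.intCast_zmod_eq_zero_iff_dvd] 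
    push_cast
    rw [legendreSym.eq_pow, sub_self]
  have h2 := norm_intc_lt (p := p) _ hε
  have h3 : ‖φ Y - Y * ((legendreSym p X : ℤ) : PadicAlgCl p)‖ < 1 := by
    have e : φ Y - Y * ((legendreSym p X : ℤ) : PadicAlgCl p) =
        (φ Y - Y ^ p) + Y * ((X ^ (p / 2) - legendreSym p X : ℤ) : PadicAlgCl p) := by
      rw [hYp, Int.cast_sub]
      ring
    rw [e]
    refine add_lt h1 ?_
    rw [norm_mul, hY1, one_mul]
    exact h2
  rw [← jacobiSym.legendreSym.to_jacobiSym]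
  have hX0 : ((X : ℤ) : ZMod p) ≠ 0 := by
    rw [Ne, ZMod.intCast_zmod_eq_zero_iff_dvd]
    exact hX
  have h2Y : ‖(2 : PadicAlgCl p) * Y‖ = 1 := by
    rw [norm_mul, norm_two hp, hY1, one_mul]
  constructor
  · intro h4
    rcases legendreSym.eq_one_or_neg_one p hX0 with h5 | h5
    · exact h5
    · exfalso
      rw [h4, h5] at h3
      have e : Y - Y * (((-1 : ℤ)) : PadicAlgCl p) = 2 * Y := by
        push_cast
        ring
      rw [e, h2Y] at h3
      exact lt_irrefl _ h3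
  · intro h4
    have h5 : (φ Y) ^ 2 = Y ^ 2 := by rw [← map_pow, hY, map_intCast]
    rcases sq_eq_sq_iff_eq_or_eq_neg.1 h5 with h6 | h6
    · exact h6
    · exfalso
      rw [h6, h4] at h3
      have e : -Y - Y * (((1 : ℤ)) : PadicAlgCl p) = -(2 * Y) := by
        push_cast
        ring
      rw [e, norm_neg, h2Y] at h3
      exact lt_irrefl _ h3

theorem inv_cmp {ι : QBar →ₐ[ℚ] PadicAlgCl p} {Φ : PadicAlgCl p ≃ₐ[ℚ_[p]] PadicAlgCl p} {F : Gal}
    (h : ∀ x, Φ (ι x) = ι (F x)) (x : QBar) : Φ⁻¹ (ι x) = ι (F⁻¹ x) := by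
  have h1 : Φ (ι (F⁻¹ x)) = ι x := by
    rw [h]
    congr 1
    exact AlgEquiv.apply_symm_apply F x
  rw [← h1]
  exact AlgEquiv.symm_apply_apply Φ _

/-- the commutator with an inertial element -/
theorem comm_inr {ι : QBar →ₐ[ℚ] PadicAlgCl p} {F τ : Gal} (hF : F ∈ Dec ι) (hτ : τ ∈ Inr ι) :
    F⁻¹ * τ⁻¹ * F * τ ∈ Inr ι := by
  obtain ⟨Φ, hΦ⟩ := hF
  obtain ⟨T, hT, hin⟩ := hτ
  refine ⟨Φ⁻¹ * T⁻¹ * Φ * T, fun x => ?_, fun z hz => ?_⟩
  · simp only [AlgEquiv.mul_apply]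
    rw [hT, hΦ, inv_cmp hT, inv_cmp hΦ]
  · simp only [AlgEquiv.mul_apply]
    have e1 : Φ⁻¹ (Φ (T z)) = T z := AlgEquiv.symm_apply_apply Φ _
    have e2 : T (T⁻¹ (Φ (T z))) = Φ (T z) := AlgEquiv.apply_symm_apply T _
    have hw : ‖T⁻¹ (Φ (T z))‖ ≤ 1 := by
      rw [nrm, nrm, nrm]
      exact hz
    have h1 : ‖Φ⁻¹ (T⁻¹ (Φ (T z))) - T z‖ < 1 := by
      rw [← e1, ← map_sub, nrm, e1]
      have h2 := hin _ hw
      rw [e2] at h2
      rw [norm_sub_rev]
      exact h2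
    have h3 := add_lt h1 (hin z hz)
    rwa [sub_add_sub_cancel] at h3

end

theorem t_FRB (h2 : S_RAM) (_h3 : S_UNR) (_h4 : S_CYC) : S_FRB := by
  intro p _ ι D s hp hs hpD hsq
  obtain ⟨φ, hφ⟩ := exists_phi (p := p)
  -- a Frobenius element which fixes `s`
  obtain ⟨Φ, F, hΦ, hF, hFs⟩ : ∃ (Φ : PadicAlgCl p ≃ₐ[ℚ_[p]] PadicAlgCl p) (F : Gal),
      (∀ z : PadicAlgCl p, IsIntegral ℤ_[p] z → ‖Φ z - z ^ p‖ < 1) ∧
      (∀ x, Φ (ι x) = ι (F x)) ∧ F s = s := by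
    obtain ⟨F₀, hF₀⟩ := exists_cmp ι φ
    have h5 : (F₀ s) ^ 2 = s ^ 2 := by rw [← map_pow, hs, map_intCast]
    rcases sq_eq_sq_iff_eq_or_eq_neg.1 h5 with h6 | h6
    · exact ⟨φ, F₀, hφ, hF₀, h6⟩
    · obtain ⟨τ, ⟨T, hT, hin⟩, hτs⟩ := h2 p ι D s hp hs hpD hsq
      refine ⟨φ * T, F₀ * τ, fun z hz => ?_, fun x => ?_, ?_⟩
      · rw [AlgEquiv.mul_apply]
        have e : φ (T z) - z ^ p = φ (T z - z) + (φ z - z ^ p) := by
          rw [map_sub]
          ring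
        rw [e]
        refine add_lt ?_ (hφ z hz)
        rw [nrm]
        exact hin z (norm_int hz)
      · rw [AlgEquiv.mul_apply, AlgEquiv.mul_apply, hT, hF₀]
      · rw [AlgEquiv.mul_apply, hτs, map_neg, h6, neg_neg]
  refine ⟨F, ⟨Φ, hF⟩, hFs, ?_, ?_, ?_⟩
  · apply cyc_eq
    intro n t ht
    apply ι.injective
    show ι (F t) = ι (t ^ p)
    rw [← hF, map_pow]
    exact phi_root hp hΦ (n := n) (by rw [← map_pow, ht, map_one])
  · intro X y hy hX
    have hY : (ι y) ^ 2 = (X : PadicAlgCl p) := by rw [← map_pow, hy, map_intCast]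
    rw [← phi_sqrt hp hΦ hY hX, hF]
    exact ι.injective.eq_iff.symm
  · intro τ hτ
    exact comm_inr ⟨Φ, hF⟩ hτ

end Pool.Agent.NH5.SC.A4
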