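import Pool.Agent.NH5.SC.Stm

/-!
Existence of a Frobenius element in the absolute Galois group of `ℚ_p`.
-/

set_option autoImplicit false

namespace Pool.Agent.NH5.SC.A4

open Pool.Agent.NH5.SC Polynomial

/-- lifting automorphisms of residue rings (adapted from `Pool/Agent/H124R3/Prof.lean`) -/
theorem exists_lift {F L A : Type} [Field F] [Field L] [Algebra F L] [IsGalois F L]
    [CommRing A] [IsDedekindDomain A] [Algebra A F] [IsFractionRing A F] [Algebra A L]
    [IsScalarTower A F L] (Q : Ideal (integralClosure A L)) (hQ : Q.IsPrime)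
    (s : (integralClosure A L ⧸ Q) ≃+* (integralClosure A L ⧸ Q))
    (hs : ∀ a : A, s (Ideal.Quotient.mk Q (algebraMap A (integralClosure A L) a)) =
      Ideal.Quotient.mk Q (algebraMap A (integralClosure A L) a)) :
    ∃ ν : L ≃ₐ[F] L, ∀ b c : integralClosure A L, ν (b : L) = c →
      Ideal.Quotient.mk Q c = s (Ideal.Quotient.mk Q b) := by
  have halgA : Algebra.IsAlgebraic A L :=
    (IsFractionRing.comap_isAlgebraic_iff (A := A) (K := F) (C := L)).mpr inferInstance
  have hinjAL : Function.Injective (algebraMap A L) := by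
    rw [IsScalarTower.algebraMap_eq A F L]
    exact (algebraMap F L).injective.comp (IsFractionRing.injective A F)
  have htf : IsDomain (integralClosure A L) := inferInstance
  have hFr : IsFractionRing (integralClosure A L) L :=
    integralClosure.isFractionRing_of_algebraic (fun x hx => hinjAL (by rw [hx, map_zero]))
  let _ : MulSemiringAction (L ≃ₐ[F] L) (integralClosure A L) :=
    IsIntegralClosure.MulSemiringAction A F L (integralClosure A L)
  have hsmul : ∀ (σ : L ≃ₐ[F] L) (c : integralClosure A L), ((σ • c : integralClosure A L) : L) =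
      σ c := fun σ c => algebraMap_galRestrict_apply A σ c
  let _ : TopologicalSpace (integralClosure A L) := ⊥
  have hdisc : DiscreteTopology (integralClosure A L) := ⟨rfl⟩
  have hcont : ContinuousSMul (L ≃ₐ[F] L) (integralClosure A L) := by
    refine (continuousSMul_iff_stabilizer_isOpen (M := L ≃ₐ[F] L)
      (X := integralClosure A L)).mpr fun c => ?_
    have h1 := stabilizer_isOpen_of_isIntegral (K := F) (L := L) (c : L)
    convert h1 using 1
    ext σ
    simp only [SetLike.mem_coe, MulAction.mem_stabilizer_iff]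
    constructor
    · intro h2
      have h3 := congrArg (fun z : integralClosure A L => (z : L)) h2
      simp only [hsmul] at h3
      exact h3
    · intro h2
      apply Subtype.ext
      rw [hsmul]
      exact h2
  have hcomm : SMulCommClass (L ≃ₐ[F] L) A (integralClosure A L) := by
    constructor
    intro σ a c
    apply Subtype.ext
    rw [hsmul]
    change σ (a • (c : L)) = a • ((σ • c : integralClosure A L) : L)
    rw [hsmul, Algebra.smul_def, Algebra.smul_def, map_mul]
    congr 1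
    rw [IsScalarTower.algebraMap_apply A F L, AlgEquiv.commutes]
  have hinv : Algebra.IsInvariant A (integralClosure A L) (L ≃ₐ[F] L) := by
    refine ⟨fun b hb => ?_⟩
    have hb2 : ∀ σ : L ≃ₐ[F] L, σ (b : L) = b := fun σ => by rw [← hsmul, hb σ]
    obtain ⟨y, hy⟩ := (InfiniteGalois.mem_range_algebraMap_iff_fixed (k := F) (K := L) (b : L)).mpr hb2
    have hy2 : IsIntegral A y := by
      have := b.2
      rw [mem_integralClosure_iff, ← hy] at this
      exact (isIntegral_algebraMap_iff (algebraMap F L).injective).mp this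
    obtain ⟨a, ha⟩ := IsIntegrallyClosed.isIntegral_iff.mp hy2
    refine ⟨a, ?_⟩
    apply Subtype.ext
    change algebraMap A L a = (b : L)
    rw [← hy, ← ha, ← IsScalarTower.algebraMap_apply]
  let σ : (integralClosure A L ⧸ Q) ≃ₐ[A ⧸ Q.under A] (integralClosure A L ⧸ Q) :=
    AlgEquiv.ofRingEquiv (f := s) (by
      intro x
      obtain ⟨a, rfl⟩ := Ideal.Quotient.mk_surjective x
      exact hs a)
  obtain ⟨ν, hν⟩ := Ideal.Quotient.stabilizerHom_surjective_of_profinite
    (G := L ≃ₐ[F] L) (Q.under A) Q σ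
  refine ⟨ν.1, ?_⟩
  intro b c hbc
  have h1 := DFunLike.congr_fun hν (Ideal.Quotient.mk Q b)
  have h2 : c = ν.1 • b := by
    apply Subtype.ext
    rw [hsmul]
    exact hbc.symm
  rw [h2]
  exact h1

section

variable {p : ℕ} [Fact p.Prime]

theorem norm_int {z : PadicAlgCl p} (hz : IsIntegral ℤ_[p] z) : ‖z‖ ≤ 1 := by
  have h1 : minpoly ℚ_[p] z = (minpoly ℤ_[p] z).map (algebraMap ℤ_[p] ℚ_[p]) :=
    minpoly.isIntegrallyClosed_eq_field_fractions' ℚ_[p] hz
  have h2 : (minpoly ℚ_[p] z).Monic := minpoly.monic (Algebra.IsIntegral.isIntegral z)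
  rw [← PadicAlgCl.spectralNorm_eq]
  unfold spectralNorm
  rw [spectralValue_le_one_iff h2]
  intro n
  rw [h1, coeff_map]
  exact ((minpoly ℤ_[p] z).coeff n).2

theorem norm_alg (a : ℤ_[p]) : ‖algebraMap ℤ_[p] (PadicAlgCl p) a‖ = ‖a‖ := by
  rw [IsScalarTower.algebraMap_apply ℤ_[p] ℚ_[p] (PadicAlgCl p)]
  exact PadicAlgCl.norm_extends p _

theorem norm_p : ‖(p : PadicAlgCl p)‖ < 1 := by
  have h1 := norm_alg (p := p) (p : ℤ_[p])
  rw [map_natCast] at h1
  rw [h1, PadicInt.norm_p]
  exact inv_lt_one_of_one_lt₀ (by exact_mod_cast (Fact.out : p.Prime).one_lt)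

theorem add_lt {x y : PadicAlgCl p} (hx : ‖x‖ < 1) (hy : ‖y‖ < 1) : ‖x + y‖ < 1 :=
  (IsUltrametricDist.norm_add_le_max x y).trans_lt (max_lt hx hy)

/-- the prime ideal of the integral closure -/
def QQ (p : ℕ) [Fact p.Prime] : Ideal (integralClosure ℤ_[p] (PadicAlgCl p)) where
  carrier := {b | ‖(b : PadicAlgCl p)‖ < 1}
  zero_mem' := by
    show ‖((0 : integralClosure ℤ_[p] (PadicAlgCl p)) : PadicAlgCl p)‖ < 1
    simp
  add_mem' := fun {a b} ha hb => add_lt ha hb
  smul_mem' := fun c {b} hb => by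
    show ‖(c : PadicAlgCl p) * (b : PadicAlgCl p)‖ < 1
    rw [norm_mul]
    have h1 := norm_int c.2
    have h2 : ‖(b : PadicAlgCl p)‖ < 1 := hb
    calc ‖(c : PadicAlgCl p)‖ * ‖(b : PadicAlgCl p)‖ ≤ 1 * ‖(b : PadicAlgCl p)‖ :=
          mul_le_mul_of_nonneg_right h1 (norm_nonneg _)
      _ < 1 := by rwa [one_mul]

theorem mem_QQ {b : integralClosure ℤ_[p] (PadicAlgCl p)} :
    b ∈ QQ p ↔ ‖(b : PadicAlgCl p)‖ < 1 := Iff.rfl

theorem prime_QQ : (QQ p).IsPrime := by
  refine ⟨?_, ?_⟩
  · rw [Ne, Ideal.eq_top_iff_one, mem_QQ]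
    simp
  · intro a b hab
    rw [mem_QQ] at hab ⊢
    rw [mem_QQ]
    change ‖(a : PadicAlgCl p) * (b : PadicAlgCl p)‖ < 1 at hab
    rw [norm_mul] at hab
    by_contra hcon
    push Not at hcon
    nlinarith [norm_nonneg (a : PadicAlgCl p), norm_nonneg (b : PadicAlgCl p)]

theorem fermat (a : ℤ_[p]) : ‖a ^ p - a‖ < 1 := by
  have h1 : a ^ p - a ∈ RingHom.ker (PadicInt.toZMod (p := p)) := by
    rw [RingHom.mem_ker, map_sub, map_pow, ZMod.pow_card, sub_self]
  rwa [PadicInt.ker_toZMod, IsLocalRing.mem_maximalIdeal, PadicInt.mem_nonunits] at h1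

theorem fin_QQ : Finite (ℤ_[p] ⧸ (QQ p).under ℤ_[p]) := by
  have h1 : (QQ p).under ℤ_[p] = RingHom.ker (PadicInt.toZMod (p := p)) := by
    ext a
    rw [Ideal.under_def, Ideal.mem_comap, mem_QQ, PadicInt.ker_toZMod,
      IsLocalRing.mem_maximalIdeal, PadicInt.mem_nonunits]
    have h2 := norm_alg (p := p) a
    rw [← h2]
    rfl
  rw [h1]
  exact Finite.of_injective _ (RingHom.kerLift_injective (PadicInt.toZMod (p := p)))

/-- a Frobenius element -/
theorem exists_phi : ∃ φ : PadicAlgCl p ≃ₐ[ℚ_[p]] PadicAlgCl p,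
    ∀ z : PadicAlgCl p, IsIntegral ℤ_[p] z → ‖φ z - z ^ p‖ < 1 := by
  have hp : p.Prime := Fact.out
  have hQ := prime_QQ (p := p)
  have hfin := fin_QQ (p := p)
  have hdom : IsDomain (integralClosure ℤ_[p] (PadicAlgCl p) ⧸ QQ p) :=
    Ideal.Quotient.isDomain (QQ p)
  have hCQ : CharP (integralClosure ℤ_[p] (PadicAlgCl p) ⧸ QQ p) p := by
    have h1 : (p : integralClosure ℤ_[p] (PadicAlgCl p) ⧸ QQ p) = 0 := by
      have h2 : (p : integralClosure ℤ_[p] (PadicAlgCl p)) ∈ QQ p := by
        rw [mem_QQ]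
        exact norm_p
      have h3 := Ideal.Quotient.eq_zero_iff_mem.2 h2
      rwa [map_natCast] at h3
    exact (CharP.charP_iff_prime_eq_zero hp).mpr h1
  have hER : ExpChar (integralClosure ℤ_[p] (PadicAlgCl p) ⧸ QQ p) p := ExpChar.prime hp
  have hinj : Function.Injective (frobenius (integralClosure ℤ_[p] (PadicAlgCl p) ⧸ QQ p) p) :=
    frobenius_inj _ p
  have hsurj : Function.Surjective (frobenius (integralClosure ℤ_[p] (PadicAlgCl p) ⧸ QQ p) p) := by
    intro x
    have hint : IsIntegral (ℤ_[p] ⧸ (QQ p).under ℤ_[p]) x := by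
      obtain ⟨b, rfl⟩ := Ideal.Quotient.mk_surjective x
      have h1 : IsIntegral ℤ_[p] b :=
        isIntegral_algebraMap_iff (B := PadicAlgCl p) Subtype.val_injective |>.mp b.2
      have h2 : IsIntegral ℤ_[p] (Ideal.Quotient.mk (QQ p) b) :=
        h1.map (Ideal.Quotient.mkₐ ℤ_[p] (QQ p))
      exact h2.tower_top
    let S := Algebra.adjoin (ℤ_[p] ⧸ (QQ p).under ℤ_[p]) {x}
    have hSf : Module.Finite (ℤ_[p] ⧸ (QQ p).under ℤ_[p]) S :=
      Module.Finite.iff_fg.mpr (IsIntegral.fg_adjoin_singleton hint)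
    have hSfin : Finite S := Module.finite_of_finite (ℤ_[p] ⧸ (QQ p).under ℤ_[p])
    let ψ : S → S := fun y => y ^ p
    have hψ : Function.Injective ψ := by
      intro y z hyz
      apply Subtype.ext
      apply hinj
      rw [frobenius_def, frobenius_def]
      exact congrArg Subtype.val hyz
    obtain ⟨y, hy⟩ := (Finite.injective_iff_surjective.mp hψ)
      ⟨x, Algebra.self_mem_adjoin_singleton _ x⟩
    exact ⟨y, by rw [frobenius_def]; exact congrArg Subtype.val hy⟩
  let s := RingEquiv.ofBijective (frobenius (integralClosure ℤ_[p] (PadicAlgCl p) ⧸ QQ p) p)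
    ⟨hinj, hsurj⟩
  have hs1 : ∀ b : integralClosure ℤ_[p] (PadicAlgCl p),
      s (Ideal.Quotient.mk (QQ p) b) = Ideal.Quotient.mk (QQ p) (b ^ p) := by
    intro b
    change frobenius _ p _ = _
    rw [frobenius_def, map_pow]
  obtain ⟨ν, hν⟩ := exists_lift (F := ℚ_[p]) (L := PadicAlgCl p) (A := ℤ_[p]) (QQ p) hQ s (by
    intro a
    rw [hs1, Ideal.Quotient.eq, mem_QQ]
    have h1 := fermat a
    rw [← norm_alg, map_sub, map_pow] at h1
    exact h1)
  refine ⟨ν, fun z hz => ?_⟩
  have hνz : IsIntegral ℤ_[p] (ν z) := hz.map (ν.restrictScalars ℤ_[p])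
  have h1 := hν ⟨z, hz⟩ ⟨ν z, hνz⟩ rfl
  rw [hs1, Ideal.Quotient.eq, mem_QQ] at h1
  exact h1

end

end Pool.Agent.NH5.SC.A4
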