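import Pool.Agent.NH5.SC.Stm
import Pool.Agent.NH57.SQ.KUM

/-!
Project SC, part SC-5 (S_KUM): quadratic characters of the absolute Galois group of `ℚ` (helper54), from
the part KUM of project SQ.
-/

set_option autoImplicit false

namespace Pool.Agent.NH5.SC.A5

open Pool.Agent.NH5.SC

theorem t_KUM : S_KUM := by
  intro f hf hm
  obtain ⟨X, y, h1, h2, h3⟩ := Pool.Agent.NH57.SQ.t_KUM f
    ((IsLocallyConstant.iff_continuous f).2 hf) hm
  exact ⟨X, y, h1, h2, fun σ => (h3 σ).symm⟩

end Pool.Agent.NH5.SC.A5
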