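import Pool.Agent.NH5.SC.Stm

/-! SC-6: the corestriction -/

set_option autoImplicit false

open Topology Filter

namespace Pool.Agent.NH5.SC.A6

open Pool.Agent.NH5.SC

lemma tw_mul (r : ℤ) (a b : Gal) : tw r (a * b) = tw r a * tw r b := by
  unfold tw
  rw [map_mul, mul_zpow]
  push_cast
  rfl

lemma tw_one (r : ℤ) : tw r (1 : Gal) = 1 := by
  unfold tw
  rw [map_one, one_zpow]
  rfl

lemma tw_inv (r : ℤ) (a : Gal) : tw r a * tw r a⁻¹ = 1 := by
  rw [← tw_mul, mul_inv_cancel, tw_one]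

lemma tw_conj (r : ℤ) (t a : Gal) : tw r (t⁻¹ * a * t) = tw r a := by
  rw [tw_mul, tw_mul]
  linear_combination (tw r a) * tw_inv r t

lemma tw_left (r : ℤ) (t a : Gal) : tw r t * tw r (t⁻¹ * a) = tw r a := by
  rw [tw_mul]
  linear_combination (tw r a) * tw_inv r t

lemma inv_neg {s : QBar} {t : Gal} (hts : t s = -s) : t⁻¹ s = -s := by
  have h : t (t⁻¹ s) = t (-s) := by
    rw [map_neg, hts, neg_neg, ← AlgEquiv.mul_apply, mul_inv_cancel, AlgEquiv.one_apply]
  exact t.injective h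

section dec

variable {p : ℕ} [Fact p.Prime]

lemma dec_mul {κ : QBar →ₐ[ℚ] PadicAlgCl p} {a b : Gal} (ha : a ∈ Dec κ) (hb : b ∈ Dec κ) :
    a * b ∈ Dec κ := by
  obtain ⟨x, hx⟩ := ha
  obtain ⟨y, hy⟩ := hb
  refine ⟨x * y, fun z => ?_⟩
  rw [AlgEquiv.mul_apply, AlgEquiv.mul_apply, hy, hx]

lemma dec_inv {κ : QBar →ₐ[ℚ] PadicAlgCl p} {a : Gal} (ha : a ∈ Dec κ) : a⁻¹ ∈ Dec κ := by
  obtain ⟨x, hx⟩ := ha
  refine ⟨x⁻¹, fun z => ?_⟩
  apply x.injective
  rw [hx, ← AlgEquiv.mul_apply, mul_inv_cancel, AlgEquiv.one_apply, ← AlgEquiv.mul_apply a,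
    mul_inv_cancel, AlgEquiv.one_apply]

lemma inr_sq {κ : QBar →ₐ[ℚ] PadicAlgCl p} {a : Gal} (ha : a ∈ Inr κ) : a * a ∈ Inr κ := by
  obtain ⟨x, hx, hx1⟩ := ha
  refine ⟨x * x, fun z => ?_, fun z hz => ?_⟩
  · rw [AlgEquiv.mul_apply, AlgEquiv.mul_apply, hx, hx]
  · rw [AlgEquiv.mul_apply]
    have h1 := hx1 z hz
    have h2 : ‖x z‖ ≤ 1 := by
      have : x z = (x z - z) + z := by ring
      rw [this]
      exact (PadicAlgCl.isNonarchimedean p _ _).trans (max_le h1.le hz)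
    have h3 := hx1 _ h2
    have : x (x z) - z = (x (x z) - x z) + (x z - z) := by ring
    rw [this]
    exact (PadicAlgCl.isNonarchimedean p _ _).trans_lt (max_lt h3 h1)

lemma inr_conj {κ : QBar →ₐ[ℚ] PadicAlgCl p} {a : Gal} (t : Gal) (ha : a ∈ Inr κ) :
    t⁻¹ * a * t ∈ Inr (κ.comp (t : QBar →ₐ[ℚ] QBar)) := by
  obtain ⟨x, hx, hx1⟩ := ha
  refine ⟨x, fun z => ?_, hx1⟩
  change x (κ (t z)) = κ (t ((t⁻¹ * a * t) z))
  rw [hx]
  congr 1
  rw [← AlgEquiv.mul_apply, ← AlgEquiv.mul_apply t]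
  congr 1
  group

end dec

theorem t_COR : S_COR := by
  intro hcyc ι s r c t hs0 hpm hc ht hts
  have hts' := inv_neg hts
  have hne : s ≠ -s := by
    intro h
    apply hs0
    have h2 : (2 : QBar) * s = 0 := by linear_combination h
    exact (mul_eq_zero.1 h2).resolve_left two_ne_zero
  -- membership
  have m1 : ∀ σ : Gal, σ s = s → (t⁻¹ * σ * t) s = s := by
    intro σ h
    rw [AlgEquiv.mul_apply, AlgEquiv.mul_apply, hts, map_neg, h, map_neg, hts', neg_neg]
  have m2 : ∀ σ : Gal, ¬ σ s = s → (σ * t) s = s := by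
    intro σ h
    rw [AlgEquiv.mul_apply, hts, map_neg, (hpm σ).resolve_left h, neg_neg]
  have m3 : ∀ σ : Gal, ¬ σ s = s → (t⁻¹ * σ) s = s := by
    intro σ h
    rw [AlgEquiv.mul_apply, (hpm σ).resolve_left h, map_neg, hts', neg_neg]
  have n1 : ∀ σ τ : Gal, σ s = s → τ s = s → (σ * τ) s = s := by
    intro σ τ h1 h2
    rw [AlgEquiv.mul_apply, h2, h1]
  have n2 : ∀ σ τ : Gal, σ s = s → ¬ τ s = s → ¬ (σ * τ) s = s := by
    intro σ τ h1 h2
    rw [AlgEquiv.mul_apply, (hpm τ).resolve_left h2, map_neg, h1]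
    exact fun h => hne h.symm
  have n3 : ∀ σ τ : Gal, ¬ σ s = s → τ s = s → ¬ (σ * τ) s = s := by
    intro σ τ h1 h2
    rw [AlgEquiv.mul_apply, h2]
    exact h1
  have n4 : ∀ σ τ : Gal, ¬ σ s = s → ¬ τ s = s → (σ * τ) s = s := by
    intro σ τ h1 h2
    rw [AlgEquiv.mul_apply, (hpm τ).resolve_left h2, map_neg, (hpm σ).resolve_left h1, neg_neg]
  have hM := hc.mul
  have cP : ∀ σ : Gal, σ s = s → cor s r t c σ = c σ + tw r t * c (t⁻¹ * σ * t) := by
    intro σ h
    unfold cor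
    rw [if_pos h]
  have cN : ∀ σ : Gal, ¬ σ s = s → cor s r t c σ = c (σ * t) + tw r t * c (t⁻¹ * σ) := by
    intro σ h
    unfold cor
    rw [if_neg h]
  refine ⟨?_, ?_, ?_, ?_⟩
  · -- continuity
    have hset : {σ : Gal | σ 1 = 1} = Set.univ := by
      ext σ
      simp
    rw [hset, continuousOn_univ]
    have hst : (MulAction.stabilizer Gal s : Set Gal) = {σ : Gal | σ s = s} := by
      ext σ
      simp [MulAction.mem_stabilizer_iff]
    have hopen : IsOpen {σ : Gal | σ s = s} := by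
      rw [← hst]
      have : Algebra.IsAlgebraic ℚ QBar := AlgebraicClosure.isAlgebraic ℚ
      have : Algebra.IsIntegral ℚ QBar := Algebra.IsAlgebraic.isIntegral
      exact stabilizer_isOpen_of_isIntegral (K := ℚ) (L := QBar) s
    have hclosed : IsClosed {σ : Gal | σ s = s} := by
      rw [← hst]
      exact Subgroup.isClosed_of_isOpen _ (by rw [hst]; exact hopen)
    have hopen' : IsOpen {σ : Gal | ¬ σ s = s} := hclosed.isOpen_compl
    have hca : ∀ σ : Gal, σ s = s → ContinuousAt c σ := fun σ h =>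
      hc.cont.continuousAt (hopen.mem_nhds h)
    rw [continuous_iff_continuousAt]
    intro σ
    by_cases h : σ s = s
    · have e : cor s r t c =ᶠ[𝓝 σ] fun σ => c σ + tw r t * c (t⁻¹ * σ * t) := by
        filter_upwards [hopen.mem_nhds h] with σ' h'
        exact cP σ' h'
      refine ContinuousAt.congr ?_ e.symm
      refine (hca σ h).add (continuousAt_const.mul ?_)
      exact ContinuousAt.comp (f := fun σ : Gal => t⁻¹ * σ * t) (hca _ (m1 σ h))
        (((continuous_const.mul continuous_id).mul continuous_const).continuousAt)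
    · have e : cor s r t c =ᶠ[𝓝 σ] fun σ => c (σ * t) + tw r t * c (t⁻¹ * σ) := by
        filter_upwards [hopen'.mem_nhds h] with σ' h'
        exact cN σ' h'
      refine ContinuousAt.congr ?_ e.symm
      refine ContinuousAt.add ?_ (continuousAt_const.mul ?_)
      · exact ContinuousAt.comp (f := fun σ : Gal => σ * t) (hca _ (m2 σ h))
          ((continuous_id.mul continuous_const).continuousAt)
      · exact ContinuousAt.comp (f := fun σ : Gal => t⁻¹ * σ) (hca _ (m3 σ h))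
          ((continuous_const.mul continuous_id).continuousAt)
  · -- the cocycle identity
    intro σ τ _ _
    by_cases h1 : σ s = s <;> by_cases h2 : τ s = s
    · rw [cP _ (n1 σ τ h1 h2), cP _ h1, cP _ h2, hM σ τ h1 h2,
        show t⁻¹ * (σ * τ) * t = (t⁻¹ * σ * t) * (t⁻¹ * τ * t) by group,
        hM _ _ (m1 σ h1) (m1 τ h2), tw_conj]
      ring
    · rw [cN _ (n2 σ τ h1 h2), cP _ h1, cN _ h2, mul_assoc σ τ t, hM σ (τ * t) h1 (m2 τ h2),
        show t⁻¹ * (σ * τ) = (t⁻¹ * σ * t) * (t⁻¹ * τ) by group,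
        hM _ _ (m1 σ h1) (m3 τ h2), tw_conj]
      ring
    · rw [cN _ (n3 σ τ h1 h2), cN _ h1, cP _ h2,
        show σ * τ * t = (σ * t) * (t⁻¹ * τ * t) by group, hM _ _ (m2 σ h1) (m1 τ h2),
        show t⁻¹ * (σ * τ) = (t⁻¹ * σ) * τ by group, hM _ _ (m3 σ h1) h2, tw_mul r σ t]
      linear_combination c τ * tw_left r t σ
    · rw [cP _ (n4 σ τ h1 h2), cN _ h1, cN _ h2,
        show σ * τ = (σ * t) * (t⁻¹ * τ) by group, hM _ _ (m2 σ h1) (m3 τ h2),
        show t⁻¹ * ((σ * t) * (t⁻¹ * τ)) * t = (t⁻¹ * σ) * (τ * t) by group,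
        hM _ _ (m3 σ h1) (m2 τ h2), tw_mul r σ t]
      linear_combination c (τ * t) * tw_left r t σ
  · -- inertia
    intro p _ κ hp σ hσ _
    by_cases h : σ s = s
    · rw [cP _ h, hc.away p κ hp σ hσ h,
        hc.away p (κ.comp (t : QBar →ₐ[ℚ] QBar)) hp _ (inr_conj t hσ) (m1 σ h)]
      ring
    · have h1 := hc.away p κ hp (σ * σ) (inr_sq hσ) (n4 σ σ h h)
      rw [show σ * σ = (σ * t) * (t⁻¹ * σ) by group, hM _ _ (m2 σ h) (m3 σ h), tw_mul] at h1
      have h2 : tw r σ = 1 := by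
        unfold tw
        rw [hcyc.2 p κ hp σ hσ, one_zpow]
        rfl
      rw [h2, one_mul] at h1
      rw [cN _ h]
      exact h1
  · -- above 2
    obtain ⟨z, hz⟩ := hc.above
    refine ⟨z + tw r t * z, fun σ hσ _ => ?_⟩
    by_cases h : σ s = s
    · rw [cP _ h, hz σ hσ h, hz _ (dec_mul (dec_mul (dec_inv ht) hσ) ht) (m1 σ h), tw_conj]
      ring
    · rw [cN _ h, hz _ (dec_mul hσ ht) (m2 σ h), hz _ (dec_mul (dec_inv ht) hσ) (m3 σ h), tw_mul r σ t]
      linear_combination z * tw_left r t σ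

end Pool.Agent.NH5.SC.A6
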