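import Pool.Agent.NH5.SC.Stm

/-!
# SC-7: the descent
-/

set_option autoImplicit false

namespace Pool.Agent.NH5.SC.A7

open Pool.Agent.NH5.SC

theorem tw_mul (r : ℤ) (σ τ : Gal) : tw r (σ * τ) = tw r σ * tw r τ := by
  unfold tw
  rw [map_mul, mul_zpow, Units.val_mul]

theorem tw_cont (h : S_CYC) (r : ℤ) : Continuous (tw r) := by
  unfold tw
  exact Units.continuous_val.comp (h.1.zpow r)

theorem tw_one (h : S_CYC) (r : ℤ) (p : ℕ) [Fact p.Prime] (κ : QBar →ₐ[ℚ] PadicAlgCl p) (hp : p ≠ 2) (σ : Gal)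
    (hσ : σ ∈ Inr κ) : tw r σ = 1 := by
  unfold tw
  rw [h.2 p κ hp σ hσ, one_zpow, Units.val_one]

theorem two_ne : (2 : ℤ_[2]) ≠ 0 := two_ne_zero

theorem indu : Topology.IsInducing (fun z : ℤ_[2] => 2 * z) := by
  have h : Topology.IsClosedEmbedding (fun z : ℤ_[2] => 2 * z) :=
    Continuous.isClosedEmbedding (by fun_prop) (fun x y hxy => mul_left_cancel₀ two_ne hxy)
  exact h.isInducing

theorem zero_of_dvd {x : ℤ_[2]} (h : ∀ n : ℕ, (2 : ℤ_[2]) ^ n ∣ x) : x = 0 := by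
  by_contra hx
  have hpos : 0 < ‖x‖ := norm_pos_iff.2 hx
  obtain ⟨n, hn⟩ := exists_pow_lt_of_lt_one hpos (by norm_num : (1 / 2 : ℝ) < 1)
  obtain ⟨y, hy⟩ := h n
  have h2 : ‖(2 : ℤ_[2])‖ = 1 / 2 := by
    have := PadicInt.norm_p (p := 2)
    simpa using this
  have h1 : ‖x‖ ≤ (1 / 2 : ℝ) ^ n := by
    rw [hy, norm_mul, norm_pow, h2]
    calc (1 / 2 : ℝ) ^ n * ‖y‖ ≤ (1 / 2 : ℝ) ^ n * 1 := by
          apply mul_le_mul_of_nonneg_left (PadicInt.norm_le_one y) (by positivity)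
      _ = _ := mul_one _
  linarith

open Classical in
theorem half {ι : QBar →ₐ[ℚ] PadicAlgCl 2} {s : QBar} {r : ℤ} {c : Gal → ℤ_[2]} (hc : Coc ι s r c)
    (h0 : ∀ σ ∈ Dec ι, σ s = s → c σ = 0) (h2 : ∀ σ : Gal, σ s = s → (2 : ℤ_[2]) ∣ c σ) :
    ∃ d : Gal → ℤ_[2], Coc ι s r d ∧ (∀ σ ∈ Dec ι, σ s = s → d σ = 0) ∧ ∀ σ : Gal, σ s = s → c σ = 2 * d σ := by
  have h3 : ∀ σ : Gal, ∃ y : ℤ_[2], σ s = s → c σ = 2 * y := by
    intro σ
    by_cases hσ : σ s = s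
    · obtain ⟨y, hy⟩ := h2 σ hσ
      exact ⟨y, fun _ => hy⟩
    · exact ⟨0, fun h => absurd h hσ⟩
  choose d hd using h3
  refine ⟨d, ⟨?_, ?_, ?_, ?_⟩, ?_, hd⟩
  · rw [indu.continuousOn_iff]
    exact hc.cont.congr fun σ hσ => (hd σ hσ).symm
  · intro σ τ hσ hτ
    have hστ : (σ * τ) s = s := by
      rw [AlgEquiv.mul_apply, hτ, hσ]
    apply mul_left_cancel₀ two_ne
    rw [← hd _ hστ, hc.mul σ τ hσ hτ, hd σ hσ, hd τ hτ]
    ring
  · intro p _ κ hp σ hσ hs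
    apply mul_left_cancel₀ two_ne
    rw [← hd σ hs, hc.away p κ hp σ hσ hs, mul_zero]
  · refine ⟨0, fun σ hσ hs => ?_⟩
    rw [mul_zero]
    apply mul_left_cancel₀ two_ne
    rw [← hd σ hs, h0 σ hσ hs, mul_zero]
  · intro σ hσ hs
    apply mul_left_cancel₀ two_ne
    rw [← hd σ hs, h0 σ hσ hs, mul_zero]

theorem t_DSC : S_DSC := by
  intro hC ι s r hdiv c hc
  obtain ⟨z, hz⟩ := hc.above
  refine ⟨z, ?_⟩
  set c' : Gal → ℤ_[2] := fun σ => c σ - (tw r σ - 1) * z with hc'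
  have hz' : ∀ σ ∈ Dec ι, σ s = s → c' σ = 0 := by
    intro σ hσ hs
    rw [hc']
    simp only
    rw [hz σ hσ hs, sub_self]
  have hcoc : Coc ι s r c' := by
    refine ⟨?_, ?_, ?_, ?_⟩
    · exact hc.cont.sub (((tw_cont hC r).sub continuous_const).mul continuous_const).continuousOn
    · intro σ τ hσ hτ
      rw [hc']
      simp only
      rw [hc.mul σ τ hσ hτ, tw_mul]
      ring
    · intro p _ κ hp σ hσ hs
      rw [hc']
      simp only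
      rw [hc.away p κ hp σ hσ hs, tw_one hC r p κ hp σ hσ]
      ring
    · exact ⟨0, fun σ hσ hs => by rw [hz' σ hσ hs, mul_zero]⟩
  have key : ∀ (n : ℕ) (d : Gal → ℤ_[2]), Coc ι s r d → (∀ σ ∈ Dec ι, σ s = s → d σ = 0) →
      ∀ σ : Gal, σ s = s → (2 : ℤ_[2]) ^ n ∣ d σ := by
    intro n
    induction n with
    | zero => intro d _ _ σ _; simp
    | succ n ih =>
      intro d hd hd0 σ hσ
      obtain ⟨e, he, he0, hde⟩ := half hd hd0 (hdiv d hd hd0)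
      rw [hde σ hσ, pow_succ']
      exact mul_dvd_mul_left 2 (ih e he he0 σ hσ)
  intro σ hσ
  have h1 : c' σ = 0 := zero_of_dvd fun n => key n c' hcoc hz' σ hσ
  have h2 : c σ - (tw r σ - 1) * z = 0 := h1
  rwa [sub_eq_zero] at h2

end Pool.Agent.NH5.SC.A7
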