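import Pool.Agent.NH5.SC.Stm

/-!
# SC-8: over `ℚ` the classes are trivial
-/

set_option autoImplicit false

namespace Pool.Agent.NH5.SC.A8

open Pool.Agent.NH5.SC

theorem toZMod_unit (u : ℤ_[2]ˣ) : PadicInt.toZMod (u : ℤ_[2]) = (1 : ZMod 2) := by
  have h1 : IsUnit (PadicInt.toZMod (p := 2) (u : ℤ_[2])) := u.isUnit.map _
  generalize PadicInt.toZMod (p := 2) (u : ℤ_[2]) = z at h1
  revert h1
  revert z
  decide

theorem toZMod_zero_iff (x : ℤ_[2]) : PadicInt.toZMod x = (0 : ZMod 2) ↔ (2 : ℤ_[2]) ∣ x := by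
  rw [← RingHom.mem_ker, PadicInt.ker_toZMod, PadicInt.maximalIdeal_eq_span_p,
    Ideal.mem_span_singleton]
  norm_num

theorem cont_toZMod : Continuous (fun x : ℤ_[2] => (PadicInt.toZMod x : ZMod 2)) := by
  rw [continuous_discrete_rng]
  intro b
  rw [Metric.isOpen_iff]
  intro x hx
  refine ⟨1, one_pos, fun y hy => ?_⟩
  have h1 : ‖y - x‖ < 1 := by
    rw [← dist_eq_norm]
    exact hy
  have h2 : PadicInt.toZMod (p := 2) (y - x) = 0 := by
    rw [← RingHom.mem_ker, PadicInt.ker_toZMod]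
    exact (PadicInt.mem_nonunits).2 h1
  rw [map_sub, sub_eq_zero] at h2
  show PadicInt.toZMod y = b
  rw [h2]
  exact hx

theorem t_Q (h1 : S_DSQ) (h2 : S_SQ8) (h3 : S_RAM) (h4 : S_CYC) (h5 : S_KUM) (h6 : S_DSC) :
    S_Q := by
  intro ι r C hC
  have H : ∀ c : Gal → ℤ_[2], Coc ι 1 r c → (∀ σ ∈ Dec ι, σ (1 : QBar) = 1 → c σ = 0) →
      ∀ σ : Gal, σ (1 : QBar) = 1 → (2 : ℤ_[2]) ∣ c σ := by
    intro c hc hdec σ _
    have hcont : Continuous c := by
      have h7 := hc.cont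
      have h8 : {σ : Gal | σ (1 : QBar) = 1} = Set.univ := by
        ext σ
        simp
      rw [h8, continuousOn_univ] at h7
      exact h7
    obtain ⟨X, y, hX, hy, hf⟩ := h5 (fun σ => PadicInt.toZMod (c σ)) (cont_toZMod.comp hcont) (by
      intro σ τ
      show PadicInt.toZMod (c (σ * τ)) = PadicInt.toZMod (c σ) + PadicInt.toZMod (c τ)
      rw [hc.mul σ τ (map_one σ) (map_one τ), map_add, map_mul]
      unfold tw
      rw [toZMod_unit, one_mul])
    have hX0 : X ≠ 0 := hX.ne_zero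
    have hy0 : y ≠ 0 := by
      intro h
      rw [h] at hy
      apply hX0
      have h7 : ((X : ℤ) : QBar) = 0 := by
        rw [← hy]
        ring
      exact_mod_cast h7
    have hodd : ∀ p : ℕ, p.Prime → p ≠ 2 → ¬ (p : ℤ) ∣ X := by
      intro p hp hp2 hpX
      have : Fact p.Prime := ⟨hp⟩
      have : Algebra.IsAlgebraic ℚ QBar := AlgebraicClosure.isAlgebraic ℚ
      obtain ⟨σ, hσ, hσy⟩ := h3 p (IsAlgClosed.lift : QBar →ₐ[ℚ] PadicAlgCl p) X y hp2 hy hpX hX
      have h7 := hc.away p _ hp2 σ hσ (map_one σ)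
      have h8 := (hf σ).1 (by
        show PadicInt.toZMod (c σ) = 0
        rw [h7, map_zero])
      rw [hσy] at h8
      exact hy0 (self_eq_neg.1 h8.symm)
    have hsq := h1 2 ι X y hy (fun σ hσ => (hf σ).1 (by
      show PadicInt.toZMod (c σ) = 0
      rw [hdec σ hσ (map_one σ), map_zero]))
    have h8 := h2 X hX hsq
    have habs : X.natAbs = 1 := by
      by_contra h9
      obtain ⟨p, hp, hpX⟩ := Nat.exists_prime_and_dvd h9
      have hpX' : (p : ℤ) ∣ X := Int.natCast_dvd.2 hpX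
      by_cases hp2 : p = 2
      · subst hp2
        obtain ⟨k, hk⟩ := hpX'
        push_cast at hk
        omega
      · exact hodd p hp hp2 hpX'
    have hX1 : X = 1 := by omega
    have hy1 : y = 1 ∨ y = -1 := by
      rw [hX1] at hy
      push_cast at hy
      rw [pow_two] at hy
      exact mul_self_eq_one_iff.1 hy
    have hσ : σ y = y := by
      rcases hy1 with h9 | h9
      · rw [h9, map_one]
      · rw [h9, map_neg, map_one]
    exact (toZMod_zero_iff _).1 ((hf σ).2 hσ)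
  obtain ⟨z, hz⟩ := h6 h4 ι 1 r H C hC
  exact ⟨z, fun σ => hz σ (map_one σ)⟩

end Pool.Agent.NH5.SC.A8
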