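import Pool.Agent.NH5.SC.Stm

/-!
# SC-9: a cocycle modulo two extends to a homomorphism on the absolute Galois group of `ℚ`
-/

set_option autoImplicit false

namespace Pool.Agent.NH5.SC.A9

open Pool.Agent.NH5.SC

lemma toZMod_cont : Continuous (fun x : ℤ_[2] => PadicInt.toZMod x) := by
  refine IsLocallyConstant.continuous ?_
  rw [IsLocallyConstant.iff_eventually_eq]
  intro x
  filter_upwards [Metric.ball_mem_nhds x one_pos] with y hy
  rw [Metric.mem_ball, dist_eq_norm] at hy
  have h1 : y - x ∈ RingHom.ker (PadicInt.toZMod (p := 2)) := by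
    rw [PadicInt.ker_toZMod, IsLocalRing.mem_maximalIdeal, PadicInt.mem_nonunits]
    exact hy
  have h2 : PadicInt.toZMod (y - x) = 0 := h1
  rw [map_sub, sub_eq_zero] at h2
  exact h2

lemma unit_two {x : ZMod 2} (h : IsUnit x) : x = 1 := by
  have h0 : x ≠ 0 := h.ne_zero
  revert x
  decide

lemma tw_two (r : ℤ) (σ : Gal) : PadicInt.toZMod (tw r σ) = 1 := by
  have hu : IsUnit (PadicInt.toZMod (p := 2) (tw r σ)) := ((cyc σ) ^ r).isUnit.map _
  exact unit_two hu

theorem t_EXT : S_EXT := by
  intro hQ hCOR hCYC ι s r c t hs hall hc ht hts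
  classical
  obtain ⟨b, hb⟩ := hQ ι r _ (hCOR hCYC ι s r c t hs hall hc ht hts)
  set m : ℤ_[2] → ZMod 2 := fun x => PadicInt.toZMod x with hm
  have hss : s ≠ -s := by
    intro h
    have h1 : (2 : QBar) * s = 0 := by linear_combination h
    rcases mul_eq_zero.1 h1 with h2 | h2
    · norm_num at h2
    · exact hs h2
  have hC0 : ∀ σ : Gal, m (cor s r t c σ) = 0 := by
    intro σ
    rw [hb σ]
    simp only [hm, map_mul, map_sub, tw_two, map_one, sub_self, zero_mul]
  have hmul : ∀ σ τ : Gal, σ s = s → τ s = s → m (c (σ * τ)) = m (c σ) + m (c τ) := by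
    intro σ τ h1 h2
    rw [hc.mul σ τ h1 h2]
    simp only [hm, map_add, map_mul, tw_two, one_mul]
  have hti : t⁻¹ s = -s := by
    have h1 : t⁻¹ (t s) = s := by
      rw [← AlgEquiv.mul_apply, inv_mul_cancel, AlgEquiv.one_apply]
    rw [hts, map_neg] at h1
    linear_combination -h1
  -- the conjugation
  have hconj : ∀ σ : Gal, σ s = s → m (c (t⁻¹ * σ * t)) = m (c σ) := by
    intro σ h
    have h1 := hC0 σ
    unfold cor at h1
    rw [if_pos h] at h1
    simp only [hm, map_add, map_mul, tw_two, one_mul] at h1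
    show PadicInt.toZMod _ = PadicInt.toZMod _
    have h2 := CharTwo.add_self_eq_zero (PadicInt.toZMod (c σ))
    linear_combination h1 - h2
  have hone : m (c 1) = 0 := by
    have h1 := hmul 1 1 (by simp) (by simp)
    rw [mul_one] at h1
    linear_combination -h1
  -- the value at the square
  have htt : m (c (t * t)) = 0 := by
    have h1 := hC0 t
    unfold cor at h1
    rw [if_neg (by rw [hts]; exact fun h => hss h.symm), inv_mul_cancel] at h1
    simp only [hm, map_add, map_mul, tw_two, one_mul] at h1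
    have h2 : PadicInt.toZMod (c 1) = 0 := hone
    rw [h2, add_zero] at h1
    exact h1
  have httN : (t * t) s = s := by
    rw [AlgEquiv.mul_apply, hts, map_neg, hts, neg_neg]
  have htitiN : (t⁻¹ * t⁻¹) s = s := by
    rw [AlgEquiv.mul_apply, hti, map_neg, hti, neg_neg]
  have htiti : m (c (t⁻¹ * t⁻¹)) = 0 := by
    have h1 := hmul (t * t) (t⁻¹ * t⁻¹) httN htitiN
    have h2 : (t * t) * (t⁻¹ * t⁻¹) = 1 := by group
    rw [h2, hone, htt, zero_add] at h1
    exact h1.symm
  have hnN : ∀ σ : Gal, σ s ≠ s → σ s = -s := fun σ h => (hall σ).resolve_left h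
  have hmt : ∀ σ : Gal, σ s ≠ s → (σ * t) s = s := by
    intro σ h
    rw [AlgEquiv.mul_apply, hts, map_neg, hnN σ h, neg_neg]
  refine ⟨fun σ => if σ s = s then m (c σ) else m (c (σ * t)), ?_, ?_, ?_, ?_⟩
  · -- continuity
    have hmc : Continuous m := toZMod_cont
    have hint : Algebra.IsIntegral ℚ QBar :=
      Algebra.isAlgebraic_iff_isIntegral.1 (AlgebraicClosure.isAlgebraic ℚ)
    have hopen : IsOpen {σ : Gal | σ s = s} := by
      have h1 := stabilizer_isOpen_of_isIntegral (K := ℚ) (L := QBar) s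
      exact h1
    have hopenC : IsOpen {σ : Gal | ¬ σ s = s} := by
      have h2 : IsClosed {σ : Gal | σ s = s} := by
        have h1 := OpenSubgroup.isClosed ⟨MulAction.stabilizer Gal s, hopen⟩
        exact h1
      exact h2.isOpen_compl
    rw [continuous_iff_continuousAt]
    intro σ
    by_cases h : σ s = s
    · have h1 : ContinuousAt (fun σ => m (c σ)) σ :=
        hmc.continuousAt.comp (hc.cont.continuousAt (hopen.mem_nhds h))
      refine h1.congr ?_
      filter_upwards [hopen.mem_nhds h] with τ hτ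
      have hτ' : τ s = s := hτ
      rw [if_pos hτ']
    · have h1 : ContinuousAt (fun σ => m (c (σ * t))) σ := by
        have h2 : ContinuousAt c (σ * t) := hc.cont.continuousAt (hopen.mem_nhds (hmt σ h))
        have h3 : ContinuousAt (fun σ : Gal => σ * t) σ := (continuous_mul_const t).continuousAt
        have h4 : ContinuousAt (fun σ : Gal => c (σ * t)) σ := ContinuousAt.comp (f := fun σ : Gal => σ * t) h2 h3
        exact hmc.continuousAt.comp h4
      refine h1.congr ?_
      filter_upwards [hopenC.mem_nhds h] with τ hτ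
      have hτ' : ¬ τ s = s := hτ
      rw [if_neg hτ']
  · intro σ τ
    by_cases h1 : σ s = s <;> by_cases h2 : τ s = s
    · have h3 : (σ * τ) s = s := by rw [AlgEquiv.mul_apply, h2, h1]
      simp only [if_pos h1, if_pos h2, if_pos h3]
      exact hmul σ τ h1 h2
    · have h3 : ¬ (σ * τ) s = s := by
        rw [AlgEquiv.mul_apply, hnN τ h2, map_neg, h1]
        exact fun h => hss h.symm
      simp only [if_pos h1, if_neg h2, if_neg h3]
      rw [mul_assoc]
      exact hmul σ (τ * t) h1 (hmt τ h2)
    · have h3 : ¬ (σ * τ) s = s := by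
        rw [AlgEquiv.mul_apply, h2]
        exact h1
      simp only [if_neg h1, if_pos h2, if_neg h3]
      have h4 : σ * τ * t = (σ * t) * (t⁻¹ * τ * t) := by group
      have h5 : (t⁻¹ * τ * t) s = s := by
        rw [AlgEquiv.mul_apply, AlgEquiv.mul_apply, hts, map_neg, h2, map_neg, hti, neg_neg]
      rw [h4, hmul _ _ (hmt σ h1) h5, hconj τ h2]
    · have h3 : (σ * τ) s = s := by
        rw [AlgEquiv.mul_apply, hnN τ h2, map_neg, hnN σ h1, neg_neg]
      simp only [if_neg h1, if_neg h2, if_pos h3]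
      have h4 : σ * τ = (σ * t) * ((t⁻¹ * (τ * t) * t) * (t⁻¹ * t⁻¹)) := by group
      have h5 : (t⁻¹ * (τ * t) * t) s = s := by
        rw [AlgEquiv.mul_apply, AlgEquiv.mul_apply, hts, map_neg, hmt τ h2, map_neg, hti, neg_neg]
      have h6 : ((t⁻¹ * (τ * t) * t) * (t⁻¹ * t⁻¹)) s = s := by
        rw [AlgEquiv.mul_apply, htitiN, h5]
      rw [h4, hmul _ _ (hmt σ h1) h6, hmul _ _ h5 htitiN, htiti, add_zero, hconj _ (hmt τ h2)]
  · have h1 : ¬ t s = s := by rw [hts]; exact fun h => hss h.symm
    simp only [if_neg h1]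
    exact htt
  · intro σ h
    simp only [if_pos h]
    rfl

end Pool.Agent.NH5.SC.A9
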