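import Pool.Agent.NH5.SC.Stm

/-!
# Project SC: evenness over `ℚ(√D)`
-/

set_option autoImplicit false

namespace Pool.Agent.NH5.SC

open Finset

theorem zm : ∀ x : ZMod 2, x = 0 ∨ x = 1 := by decide

/-- the residue of a unit of `ℤ_2` -/
theorem toZMod_unit (u : ℤ_[2]ˣ) : PadicInt.toZMod (u : ℤ_[2]) = 1 := by
  have h : IsUnit (PadicInt.toZMod (u : ℤ_[2]) : ZMod 2) := u.isUnit.map _
  rcases zm (PadicInt.toZMod (u : ℤ_[2])) with h1 | h1
  · rw [h1] at h
    exact absurd h (by decide)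
  · exact h1

theorem toZMod_dvd {x : ℤ_[2]} (h : PadicInt.toZMod x = 0) : (2 : ℤ_[2]) ∣ x := by
  have h1 : x ∈ RingHom.ker (PadicInt.toZMod (p := 2)) := h
  rw [PadicInt.ker_toZMod, PadicInt.maximalIdeal_eq_span_p, Ideal.mem_span_singleton] at h1
  exact_mod_cast h1

theorem dec_mul {p : ℕ} [Fact p.Prime] {ι : QBar →ₐ[ℚ] PadicAlgCl p} {σ τ : Gal} (h : σ ∈ Dec ι)
    (h' : τ ∈ Dec ι) : σ * τ ∈ Dec ι := by
  obtain ⟨a, ha⟩ := h
  obtain ⟨b, hb⟩ := h'
  exact ⟨a * b, fun x => by rw [AlgEquiv.mul_apply, AlgEquiv.mul_apply, hb, ha]⟩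

theorem jneg {x : ℤ} {p : ℕ} (hp : p % 2 = 1) :
    (p % 4 = 1 → jacobiSym (-x) p = jacobiSym x p) ∧
      (p % 4 = 3 → jacobiSym (-x) p = -jacobiSym x p) := by
  have h := jacobiSym.neg x (Nat.odd_iff.2 hp)
  constructor
  · intro h4
    rw [h, ZMod.χ₄_nat_one_mod_four h4, one_mul]
  · intro h4
    rw [h, ZMod.χ₄_nat_three_mod_four h4, neg_one_mul]

theorem emb_ex (p : ℕ) [Fact p.Prime] : Nonempty (QBar →ₐ[ℚ] PadicAlgCl p) := by
  have h : Algebra.IsAlgebraic ℚ QBar := AlgebraicClosure.isAlgebraic ℚ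
  exact ⟨IsAlgClosed.lift⟩

theorem t_EV (hQ : S_Q) (hC : S_COR) (hcyc : S_CYC) (hE : S_EXT) (hV : S_VAL) (hP : S_PAR)
    (hD : S_DSQ) (h8 : S_SQ8) (hR : S_RAM) (hU : S_UNR) (hF : S_FRB) (hK : S_KUM) (hRE : S_REV)
    (hRO : S_ROD) : S_EV := by
  intro N hN h3 hkr hks ι s r hs c hc h0
  have hprime : ∀ p ∈ N, p.Prime := fun p hp => (hN p hp).1
  have hpos : 0 < pr N := Finset.prod_pos fun p hp => (hprime p hp).pos
  have hsD : s ^ 2 = ((-(pr N : ℤ) : ℤ) : QBar) := by rw [hs]; push_cast; rfl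
  have hs0 : s ≠ 0 := by
    rintro rfl
    have h1 : ((-(pr N : ℤ) : ℤ) : QBar) = 0 := by rw [← hsD]; norm_num
    rw [Int.cast_eq_zero] at h1
    omega
  have hsqf : Squarefree (pr N) := by
    unfold pr
    refine Finset.squarefree_prod_of_pairwise_isCoprime ?_ fun p hp => (hprime p hp).prime.squarefree
    intro p hp q hq hpq
    exact (Nat.coprime_iff_isRelPrime.1 ((Nat.coprime_primes (hprime p hp) (hprime q hq)).2 hpq))
  have hDsq : Squarefree (-(pr N : ℤ)) := by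
    rw [← Int.squarefree_natAbs, Int.natAbs_neg, Int.natAbs_natCast]
    exact hsqf
  have hor : ∀ σ : Gal, σ s = s ∨ σ s = -s := by
    intro σ
    have h : (σ s) ^ 2 = s ^ 2 := by rw [← map_pow, hsD, map_intCast]
    exact sq_eq_sq_iff_eq_or_eq_neg.1 h
  obtain ⟨t, ht, hts⟩ : ∃ t ∈ Dec ι, t s = -s := by
    by_contra h
    push Not at h
    have h1 := hD 2 ι _ s hsD fun σ hσ => (hor σ).resolve_right (h σ hσ)
    have h2 := h8 _ hDsq h1
    omega
  obtain ⟨f, fc, fm, ft, fN⟩ := hE hQ hC hcyc ι s r c t hs0 hor hc ht hts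
  obtain ⟨X, y, hX, hy, hfy⟩ := hK f fc fm
  obtain ⟨b, hb⟩ := hV hQ hC hcyc ι s r c t hs0 hor hc ht hts
  have hX0 : X ≠ 0 := hX.ne_zero
  have hy0 : y ≠ 0 := by
    rintro rfl
    have h1 : ((X : ℤ) : QBar) = 0 := by rw [← hy]; norm_num
    exact hX0 (Int.cast_eq_zero.1 h1)
  have hyn : ∀ σ : Gal, σ y = -y → σ y ≠ y := by
    intro σ h1 h2
    rw [h2] at h1
    exact hy0 (by
      have h4 : (2 : QBar) * y = 0 := by linear_combination h1
      exact (mul_eq_zero.1 h4).resolve_left two_ne_zero)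
  have hdec : ∀ σ ∈ Dec ι, σ y = y := by
    intro σ hσ
    rw [← hfy]
    rcases hor σ with h | h
    · rw [fN σ h, h0 σ hσ h, map_zero]
    · have h1 : (σ * t) s = s := by rw [AlgEquiv.mul_apply, hts, map_neg, h, neg_neg]
      have h2 := fm σ t
      rw [ft, add_zero] at h2
      rw [← h2, fN _ h1, h0 _ (dec_mul hσ ht) h1, map_zero]
  have hX8 : X % 8 = 1 := h8 X hX (hD 2 ι X y hy hdec)
  have emb : ∀ (p : ℕ) [Fact p.Prime], Nonempty (QBar →ₐ[ℚ] PadicAlgCl p) :=
    fun p _ => emb_ex p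
  have hin : ∀ (p : ℕ) [Fact p.Prime] (κ : QBar →ₐ[ℚ] PadicAlgCl p), p ≠ 2 → ∀ σ ∈ Inr κ,
      σ s = s → σ y = y := by
    intro p _ κ hp σ hσ h
    rw [← hfy, fN σ h, hc.away p κ hp σ hσ h, map_zero]
  have hdvN : ∀ p : ℕ, p.Prime → ((p : ℤ) ∣ -(pr N : ℤ) ↔ p ∈ N) := by
    intro p hp
    rw [dvd_neg, Int.natCast_dvd_natCast]
    constructor
    · intro h
      obtain ⟨q, hq, hpq⟩ := (Prime.dvd_finsetProd_iff hp.prime _).1 h
      rwa [(Nat.prime_dvd_prime_iff_eq hp (hprime q hq)).1 hpq]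
    · exact fun h => Finset.dvd_prod_of_mem _ h
  have hXN : ∀ p : ℕ, p.Prime → (p : ℤ) ∣ X → p ∈ N := by
    intro p hp hpX
    have : Fact p.Prime := ⟨hp⟩
    have hp2 : p ≠ 2 := by
      rintro rfl
      push_cast at hpX
      omega
    by_contra hpN
    obtain ⟨κ⟩ := emb p
    obtain ⟨σ, hσ, h1⟩ := hR p κ X y hp2 hy hpX hX
    have h2 := hU p κ _ s hp2 hsD (fun h => hpN ((hdvN p hp).1 h)) σ hσ
    exact hyn σ h1 (hin p κ hp2 σ hσ h2)
  have hdvd : X ∣ -(pr N : ℤ) := by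
    rw [dvd_neg, ← Int.natAbs_dvd, Int.natCast_dvd_natCast,
      ← Nat.prod_primeFactors_of_squarefree (Int.squarefree_natAbs.2 hX)]
    refine Finset.prod_dvd_prod_of_subset _ _ _ fun p hp => ?_
    have h1 := Nat.mem_primeFactors.1 hp
    exact hXN p h1.1 (Int.natCast_dvd.2 h1.2.1)
  obtain ⟨Y, hXY⟩ := hdvd
  have hXY' : X * Y = -(pr N : ℤ) := hXY.symm
  have hnd : ∀ p : ℕ, p.Prime → (p : ℤ) ∣ X → ¬ (p : ℤ) ∣ Y := by
    intro p hp h1 h2
    have h4 : (p : ℤ) * p ∣ -(pr N : ℤ) := by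
      rw [hXY]
      exact mul_dvd_mul h1 h2
    have h5 := hDsq _ h4
    rw [Int.isUnit_iff] at h5
    have := hp.one_lt
    omega
  -- the other square root
  set w : QBar := s / y with hw
  have hw2 : w ^ 2 = (Y : QBar) := by
    rw [hw, div_pow, hsD, hy, hXY]
    have hXq : ((X : ℤ) : QBar) ≠ 0 := Int.cast_ne_zero.2 hX0
    push_cast
    field_simp
  have hwy : w * y = s := by rw [hw]; field_simp
  have hw0 : w ≠ 0 := fun h => hs0 (by rw [← hwy, h, zero_mul])
  -- the main computation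
  have key : ∀ p ∈ N, ∃ (v e : ZMod 2),
      (¬ (p : ℤ) ∣ X → (e = 0 ∧ (v = 0 ↔ jacobiSym X p = 1))) ∧
      ((p : ℤ) ∣ X → (e = 1 ∧ (v = 0 ↔ jacobiSym Y p = 1))) ∧
      (r % 2 = 0 ∨ p % 4 = 1 → v = 0) ∧
      (r % 2 = 1 → p % 4 = 3 → v = PadicInt.toZMod b + e) := by
    intro p hp
    have hpp := hprime p hp
    have hp2 := (hN p hp).2
    have : Fact p.Prime := ⟨hpp⟩
    obtain ⟨κ⟩ := emb p
    have hpD := (hdvN p hpp).2 hp
    obtain ⟨τ, hτ, hτs⟩ := hR p κ _ s hp2 hsD hpD hDsq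
    obtain ⟨F, hFd, hFs, hFc, hFj, hFi⟩ := hF p κ _ s hp2 hsD hpD hDsq
    have h1 := hb p κ hp2 F hFd hFs τ hτ hτs (hFi τ hτ)
    have hodd : p % 2 = 1 := Nat.odd_iff.1 (hpp.odd_of_ne_two hp2)
    obtain ⟨h2, h4⟩ := hP r p (cyc F) (c F) (b + tw r t * c (t⁻¹ * τ)) hodd hFc h1
    have hn : (t⁻¹ * τ) s = s := by
      rw [AlgEquiv.mul_apply, hτs, map_neg]
      have h5 : t⁻¹ (t s) = s := by
        rw [← AlgEquiv.mul_apply, inv_mul_cancel, AlgEquiv.one_apply]
      rw [hts, map_neg] at h5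
      exact h5
    have hf1 : f 1 = 0 := by
      have := fm 1 1
      rw [mul_one] at this
      exact left_eq_add.1 this
    have hft : f t⁻¹ = 0 := by
      have := fm t⁻¹ t
      rw [inv_mul_cancel, hf1, ft, add_zero] at this
      exact this.symm
    have hfn : PadicInt.toZMod (c (t⁻¹ * τ)) = f τ := by
      rw [← fN _ hn, fm, hft, zero_add]
    refine ⟨f F, f τ, ?_, ?_, ?_, ?_⟩
    · intro hX'
      refine ⟨(hfy τ).2 (hU p κ X y hp2 hy hX' τ hτ), ?_⟩
      rw [hfy, hFj X y hy hX']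
    · intro hX'
      have hY' := hnd p hpp hX'
      have hτw := hU p κ Y w hp2 hw2 hY' τ hτ
      constructor
      · rcases zm (f τ) with h | h
        · exfalso
          have h5 := (hfy τ).1 h
          have h6 : τ s = s := by rw [← hwy, map_mul, hτw, h5]
          rw [h6] at hτs
          exact hs0 (by
            have h7 : (2 : QBar) * s = 0 := by linear_combination hτs
            exact (mul_eq_zero.1 h7).resolve_left two_ne_zero)
        · exact h
      · rw [hfy, ← hFj Y w hw2 hY']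
        have h5 : F w * F y = w * y := by rw [← map_mul, hwy, hFs]
        constructor
        · intro h
          rw [h] at h5
          exact mul_right_cancel₀ hy0 h5
        · intro h
          rw [h] at h5
          exact mul_left_cancel₀ hw0 h5
    · intro h
      rw [fN F hFs]
      exact h2 h
    · intro h h'
      rw [fN F hFs, h4 h h', map_add, map_mul, hfn]
      have : PadicInt.toZMod (tw r t) = 1 := toZMod_unit _
      rw [this, one_mul]
  have jor : ∀ (x : ℤ) (p : ℕ), p.Prime → p ≠ 2 → ¬ (p : ℤ) ∣ x → jacobiSym x p ≠ 1 →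
      jacobiSym x p = -1 := by
    intro x p hp _ hx h
    have h1 : x.gcd p = 1 := by
      rw [Int.gcd_comm]
      exact (Int.isCoprime_iff_gcd_eq_one.1 ((Nat.prime_iff_prime_int.1 hp).coprime_iff_not_dvd.2 hx))
    exact (jacobiSym.eq_one_or_neg_one h1).resolve_left h
  have hX1 : X = 1 := by
    rcases Int.emod_two_eq_zero_or_one r with hr | hr
    · refine hRE N hN h3 hks X Y hXY' hX8 fun p hp => ?_
      obtain ⟨v, e, h1, h2, h4, -⟩ := key p hp
      exact ⟨fun h => (h1 h).2.1 (h4 (Or.inl hr)), fun h => (h2 h).2.1 (h4 (Or.inl hr))⟩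
    · refine hRO N hN h3 hkr X Y hXY' hX8 ?_
      rcases zm (PadicInt.toZMod b) with hb0 | hb0
      · left
        intro p hp
        obtain ⟨v, e, h1, h2, h4, h5⟩ := key p hp
        have hodd : p % 2 = 1 := Nat.odd_iff.1 ((hprime p hp).odd_of_ne_two (hN p hp).2)
        rcases (show p % 4 = 1 ∨ p % 4 = 3 by omega) with h6 | h6
        · have hv := h4 (Or.inr h6)
          refine ⟨fun h => (h1 h).2.1 hv, fun h => ?_⟩
          rw [(jneg hodd).1 h6]
          exact (h2 h).2.1 hv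
        · have hv := h5 hr h6
          rw [hb0, zero_add] at hv
          refine ⟨fun h => (h1 h).2.1 (hv.trans (h1 h).1), fun h => ?_⟩
          rw [(jneg hodd).2 h6, jor Y p (hprime p hp) (hN p hp).2 (hnd p (hprime p hp) h) ?_, neg_neg]
          intro h7
          have h9 := (h2 h).2.2 h7
          rw [hv, (h2 h).1] at h9
          exact absurd h9 (by decide)
      · right
        intro p hp
        obtain ⟨v, e, h1, h2, h4, h5⟩ := key p hp
        have hodd : p % 2 = 1 := Nat.odd_iff.1 ((hprime p hp).odd_of_ne_two (hN p hp).2)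
        rcases (show p % 4 = 1 ∨ p % 4 = 3 by omega) with h6 | h6
        · have hv := h4 (Or.inr h6)
          refine ⟨fun h => ?_, fun h => (h2 h).2.1 hv⟩
          rw [(jneg hodd).1 h6]
          exact (h1 h).2.1 hv
        · have hv := h5 hr h6
          rw [hb0] at hv
          refine ⟨fun h => ?_, fun h => (h2 h).2.1 (by rw [hv, (h2 h).1]; decide)⟩
          rw [(jneg hodd).2 h6, jor X p (hprime p hp) (hN p hp).2 h ?_, neg_neg]
          intro h7
          have h9 := (h1 h).2.2 h7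
          rw [hv, (h1 h).1] at h9
          exact absurd h9 (by decide)
  intro σ hσ
  apply toZMod_dvd
  rw [← fN σ hσ, hfy]
  rw [hX1, Int.cast_one] at hy
  rcases sq_eq_one_iff.1 hy with h | h
  · rw [h, map_one]
  · rw [h, map_neg, map_one]

end Pool.Agent.NH5.SC
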