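import Pool.Agent.NH5.SC.A1
import Pool.Agent.NH5.SC.A2
import Pool.Agent.NH5.SC.A3
import Pool.Agent.NH5.SC.A4
import Pool.Agent.NH5.SC.A5
import Pool.Agent.NH5.SC.A6
import Pool.Agent.NH5.SC.A7
import Pool.Agent.NH5.SC.A8
import Pool.Agent.NH5.SC.A9
import Pool.Agent.NH5.SC.A10
import Pool.Agent.NH5.SC.A11
import Pool.Agent.NH5.SC.A12
import Pool.Agent.NH5.SC.A13
import Pool.Agent.NH5.SC.Ev
import Pool.Agent.NH5.SC.LIN
import Pool.Agent.XR.All

/-!
# Project SC: the vanishing theorem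
-/

set_option autoImplicit false

namespace Pool.Agent.NH5.SC

open Pool.Agent.XR (NoFour)

theorem f_CYC : S_CYC := A3.t_CYC

theorem f_FRB : S_FRB := A4.t_FRB A2.t_RAM A3.t_UNR f_CYC

theorem f_Q : S_Q := A8.t_Q A1.t_DSQ A1.t_SQ8 A2.t_RAM f_CYC A5.t_KUM A7.t_DSC

theorem f_EV : S_EV := t_EV f_Q A6.t_COR f_CYC A9.t_EXT A10.t_VAL A11.t_PAR A1.t_DSQ A1.t_SQ8
  A2.t_RAM A3.t_UNR f_FRB A5.t_KUM A12.t_REV A13.t_ROD

/-- the Rédei kernel from the class group -/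
theorem kr_of {N : Finset ℕ} (hN : ∀ p ∈ N, p.Prime ∧ p ≠ 2) (h4 : pr N % 4 = 3)
    (hF : NoFour (-(pr N : ℤ))) : Kr N := by
  by_cases h3 : 3 < pr N
  · exact (Pool.Agent.XR.f_XR3a N hN h4 h3).2 hF
  · have h5 : pr N = 3 := by omega
    intro D hD _
    rcases D.eq_empty_or_nonempty with h | ⟨p, hp⟩
    · exact Or.inl h
    · right
      refine Finset.Subset.antisymm hD fun q hq => ?_
      have h6 : ∀ x ∈ N, x = 3 := by
        intro x hx
        have h7 : x ∣ pr N := Finset.dvd_prod_of_mem _ hx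
        rw [h5] at h7
        exact (Nat.prime_dvd_prime_iff_eq (hN x hx).1 Nat.prime_three).1 h7
      rw [h6 q hq, ← h6 p (hD hp)]
      exact hp

/-- the vanishing theorem -/
theorem van {D : ℤ} (h0 : D < 0) (hD : Squarefree D) (h8 : D % 8 = 5) (hF : NoFour D)
    (ι : QBar →ₐ[ℚ] PadicAlgCl 2) {s : QBar} (hs : s ^ 2 = (D : QBar)) (r : ℤ) (c : Gal → ℤ_[2])
    (hc : Coc ι s r c) : ∃ z : ℤ_[2], ∀ σ : Gal, σ s = s → c σ = (tw r σ - 1) * z := by
  set N := D.natAbs.primeFactors with hN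
  have hpr : pr N = D.natAbs := Nat.prod_primeFactors_of_squarefree (Int.squarefree_natAbs.2 hD)
  have hDn : D = -(pr N : ℤ) := by
    rw [hpr]
    omega
  have hodd : ∀ p ∈ N, p.Prime ∧ p ≠ 2 := by
    intro p hp
    have h1 := Nat.mem_primeFactors.1 hp
    refine ⟨h1.1, ?_⟩
    rintro rfl
    have h2 := h1.2.1
    omega
  have h3 : pr N % 8 = 3 := by omega
  have hkr : Kr N := kr_of hodd (by omega) (by rwa [← hDn])
  have hks : KrS N := LIN.main N hodd (by omega) hkr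
  refine A7.t_DSC f_CYC ι s r (f_EV N hodd h3 hkr hks ι s r ?_) c hc
  rw [hs, hDn]
  push_cast
  rfl

end Pool.Agent.NH5.SC
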