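import Mathlib

/-!
# Project SC (helper5): Schneider's conjecture at `2` for imaginary quadratic fields: statements

`c : Gal → ℤ_2` stands for a function on `N = {σ | σ s = s}`, the absolute Galois group of `ℚ(s)`.
-/

set_option autoImplicit false

namespace Pool.Agent.NH5.SC

/-- the algebraic numbers -/
abbrev QBar : Type := AlgebraicClosure ℚ

/-- the absolute Galois group of `ℚ` -/
abbrev Gal : Type := QBar ≃ₐ[ℚ] QBar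

/-- the `2`-adic cyclotomic character -/
noncomputable def cyc : Gal →* ℤ_[2]ˣ :=
  (cyclotomicCharacter QBar 2).comp (MulSemiringAction.toRingAut Gal QBar)

/-- its `r`-th power -/
noncomputable def tw (r : ℤ) (σ : Gal) : ℤ_[2] := (((cyc σ) ^ r : ℤ_[2]ˣ) : ℤ_[2])

/-- the decomposition group of an embedding -/
def Dec {p : ℕ} [Fact p.Prime] (ι : QBar →ₐ[ℚ] PadicAlgCl p) : Set Gal :=
  {σ | ∃ τ : PadicAlgCl p ≃ₐ[ℚ_[p]] PadicAlgCl p, ∀ x, τ (ι x) = ι (σ x)}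

/-- the inertia group of an embedding -/
def Inr {p : ℕ} [Fact p.Prime] (ι : QBar →ₐ[ℚ] PadicAlgCl p) : Set Gal :=
  {σ | ∃ τ : PadicAlgCl p ≃ₐ[ℚ_[p]] PadicAlgCl p, (∀ x, τ (ι x) = ι (σ x)) ∧
    ∀ z : PadicAlgCl p, ‖z‖ ≤ 1 → ‖τ z - z‖ < 1}

/-- `c` is a cocycle on `{σ | σ s = s}` with values in `ℤ_2(r)`, zero on the inertia groups of the odd
places and a coboundary on the decomposition group of `ι` -/
structure Coc (ι : QBar →ₐ[ℚ] PadicAlgCl 2) (s : QBar) (r : ℤ) (c : Gal → ℤ_[2]) : Prop where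
  cont : ContinuousOn c {σ : Gal | σ s = s}
  mul : ∀ σ τ : Gal, σ s = s → τ s = s → c (σ * τ) = c σ + tw r σ * c τ
  away : ∀ (p : ℕ) [Fact p.Prime] (κ : QBar →ₐ[ℚ] PadicAlgCl p), p ≠ 2 →
    ∀ σ ∈ Inr κ, σ s = s → c σ = 0
  above : ∃ z : ℤ_[2], ∀ σ ∈ Dec ι, σ s = s → c σ = (tw r σ - 1) * z

open Classical in
/-- the corestriction of `c` to the absolute Galois group of `ℚ` -/
noncomputable def cor (s : QBar) (r : ℤ) (t : Gal) (c : Gal → ℤ_[2]) (σ : Gal) : ℤ_[2] :=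
  if σ s = s then c σ + tw r t * c (t⁻¹ * σ * t) else c (σ * t) + tw r t * c (t⁻¹ * σ)

/-! ### local facts -/

/-- SC-1a: if the decomposition group fixes `√X`, then `X` is a square in `ℚ_p` -/
def S_DSQ : Prop := ∀ (p : ℕ) [Fact p.Prime] (ι : QBar →ₐ[ℚ] PadicAlgCl p) (X : ℤ) (y : QBar),
  y ^ 2 = (X : QBar) → (∀ σ ∈ Dec ι, σ y = y) → IsSquare (X : ℚ_[p])

/-- SC-1b -/
def S_SQ8 : Prop := ∀ X : ℤ, Squarefree X → IsSquare (X : ℚ_[2]) → X % 8 = 1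

/-- SC-2: ramification -/
def S_RAM : Prop := ∀ (p : ℕ) [Fact p.Prime] (ι : QBar →ₐ[ℚ] PadicAlgCl p) (X : ℤ) (y : QBar),
  p ≠ 2 → y ^ 2 = (X : QBar) → (p : ℤ) ∣ X → Squarefree X → ∃ σ ∈ Inr ι, σ y = -y

/-- SC-3a: no ramification -/
def S_UNR : Prop := ∀ (p : ℕ) [Fact p.Prime] (ι : QBar →ₐ[ℚ] PadicAlgCl p) (X : ℤ) (y : QBar),
  p ≠ 2 → y ^ 2 = (X : QBar) → ¬ (p : ℤ) ∣ X → ∀ σ ∈ Inr ι, σ y = y

/-- SC-3b: the cyclotomic character is unramified at the odd primes, and continuous -/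
def S_CYC : Prop := (Continuous fun σ : Gal => (cyc σ : ℤ_[2]ˣ)) ∧
  ∀ (p : ℕ) [Fact p.Prime] (ι : QBar →ₐ[ℚ] PadicAlgCl p), p ≠ 2 → ∀ σ ∈ Inr ι, cyc σ = 1

/-- SC-4: a Frobenius element which fixes `s = √D`, where `p` divides `D` exactly once -/
def S_FRB : Prop := ∀ (p : ℕ) [Fact p.Prime] (ι : QBar →ₐ[ℚ] PadicAlgCl p) (D : ℤ) (s : QBar),
  p ≠ 2 → s ^ 2 = (D : QBar) → (p : ℤ) ∣ D → Squarefree D →
  ∃ F ∈ Dec ι, F s = s ∧ ((cyc F : ℤ_[2]ˣ) : ℤ_[2]) = (p : ℤ_[2]) ∧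
    (∀ (X : ℤ) (y : QBar), y ^ 2 = (X : QBar) → ¬ (p : ℤ) ∣ X → (F y = y ↔ jacobiSym X p = 1)) ∧
    ∀ τ ∈ Inr ι, F⁻¹ * τ⁻¹ * F * τ ∈ Inr ι

/-- SC-5: Kummer theory of exponent two over `ℚ` -/
def S_KUM : Prop := ∀ f : Gal → ZMod 2, Continuous f → (∀ σ τ, f (σ * τ) = f σ + f τ) →
  ∃ (X : ℤ) (y : QBar), Squarefree X ∧ y ^ 2 = (X : QBar) ∧ ∀ σ, f σ = 0 ↔ σ y = y

/-! ### cohomology -/

/-- SC-6: the corestriction -/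
def S_COR : Prop := S_CYC → ∀ (ι : QBar →ₐ[ℚ] PadicAlgCl 2) (s : QBar) (r : ℤ) (c : Gal → ℤ_[2]) (t : Gal),
  s ≠ 0 → (∀ σ : Gal, σ s = s ∨ σ s = -s) → Coc ι s r c → t ∈ Dec ι → t s = -s →
  Coc ι 1 r (cor s r t c)

/-- SC-7: the descent -/
def S_DSC : Prop := S_CYC → ∀ (ι : QBar →ₐ[ℚ] PadicAlgCl 2) (s : QBar) (r : ℤ),
  (∀ c : Gal → ℤ_[2], Coc ι s r c → (∀ σ ∈ Dec ι, σ s = s → c σ = 0) →
    ∀ σ : Gal, σ s = s → (2 : ℤ_[2]) ∣ c σ) →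
  ∀ c : Gal → ℤ_[2], Coc ι s r c → ∃ z : ℤ_[2], ∀ σ : Gal, σ s = s → c σ = (tw r σ - 1) * z

/-- SC-8: over `ℚ` the classes are trivial -/
def S_Q : Prop := ∀ (ι : QBar →ₐ[ℚ] PadicAlgCl 2) (r : ℤ) (C : Gal → ℤ_[2]), Coc ι 1 r C →
  ∃ z : ℤ_[2], ∀ σ : Gal, C σ = (tw r σ - 1) * z

/-- SC-9: a cocycle modulo two extends to a homomorphism on the absolute Galois group of `ℚ` -/
def S_EXT : Prop := S_Q → S_COR → S_CYC → ∀ (ι : QBar →ₐ[ℚ] PadicAlgCl 2) (s : QBar) (r : ℤ)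
  (c : Gal → ℤ_[2]) (t : Gal), s ≠ 0 → (∀ σ : Gal, σ s = s ∨ σ s = -s) → Coc ι s r c →
  t ∈ Dec ι → t s = -s →
  ∃ f : Gal → ZMod 2, Continuous f ∧ (∀ σ τ, f (σ * τ) = f σ + f τ) ∧ f t = 0 ∧
    ∀ σ : Gal, σ s = s → f σ = PadicInt.toZMod (c σ)

/-- SC-10: the value at a Frobenius element of a ramified prime -/
def S_VAL : Prop := S_Q → S_COR → S_CYC → ∀ (ι : QBar →ₐ[ℚ] PadicAlgCl 2) (s : QBar) (r : ℤ)
  (c : Gal → ℤ_[2]) (t : Gal), s ≠ 0 → (∀ σ : Gal, σ s = s ∨ σ s = -s) → Coc ι s r c →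
  t ∈ Dec ι → t s = -s →
  ∃ b : ℤ_[2], ∀ (p : ℕ) [Fact p.Prime] (κ : QBar →ₐ[ℚ] PadicAlgCl p), p ≠ 2 →
    ∀ F ∈ Dec κ, F s = s → ∀ τ ∈ Inr κ, τ s = -s → F⁻¹ * τ⁻¹ * F * τ ∈ Inr κ →
      2 * c F = (tw r F - 1) * (b + tw r t * c (t⁻¹ * τ))

/-- SC-11: the parity -/
def S_PAR : Prop := ∀ (r : ℤ) (p : ℕ) (u : ℤ_[2]ˣ) (x b : ℤ_[2]), p % 2 = 1 → (u : ℤ_[2]) = p →
  2 * x = (((u ^ r : ℤ_[2]ˣ) : ℤ_[2]) - 1) * b →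
  (r % 2 = 0 ∨ p % 4 = 1 → PadicInt.toZMod x = 0) ∧
    (r % 2 = 1 → p % 4 = 3 → PadicInt.toZMod x = PadicInt.toZMod b)

/-! ### arithmetic -/

/-- the product -/
def pr (D : Finset ℕ) : ℕ := ∏ p ∈ D, p

/-- the Rédei symbols -/
def gen (N D : Finset ℕ) (p : ℕ) : ℤ :=
  if p ∈ D then jacobiSym (pr (N \ D)) p else jacobiSym (pr D) p

/-- the Rédei kernel is trivial -/
def Kr (N : Finset ℕ) : Prop := ∀ D ⊆ N, (∀ p ∈ N, gen N D p = 1) → D = ∅ ∨ D = N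

/-- `p* = ± p = 1 mod 4` -/
def ps (p : ℕ) : ℤ := if p % 4 = 1 then p else -p

/-- the Rédei symbols of the decompositions `D = d₁ d₂` -/
def genS (N D0 : Finset ℕ) (p : ℕ) : ℤ :=
  if p ∈ D0 then jacobiSym (∏ q ∈ N \ D0, ps q) p else jacobiSym (∏ q ∈ D0, ps q) p

/-- the transposed Rédei kernel is trivial -/
def KrS (N : Finset ℕ) : Prop := ∀ D0 ⊆ N, (∀ p ∈ N, genS N D0 p = 1) → D0 = ∅ ∨ D0 = N

/-- SC-12: `X D' = D = - pr N`, `N` the odd primes of `D`, even twists -/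
def S_REV : Prop := ∀ N : Finset ℕ, (∀ p ∈ N, p.Prime ∧ p ≠ 2) → pr N % 8 = 3 → KrS N →
  ∀ X Y : ℤ, X * Y = -(pr N : ℤ) → X % 8 = 1 →
  (∀ p ∈ N, (¬ (p : ℤ) ∣ X → jacobiSym X p = 1) ∧ ((p : ℤ) ∣ X → jacobiSym Y p = 1)) → X = 1

/-- SC-13: odd twists; `e` is the sign `(-1)^b` -/
def S_ROD : Prop := ∀ N : Finset ℕ, (∀ p ∈ N, p.Prime ∧ p ≠ 2) → pr N % 8 = 3 → Kr N →
  ∀ X Y : ℤ, X * Y = -(pr N : ℤ) → X % 8 = 1 →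
  ((∀ p ∈ N, (¬ (p : ℤ) ∣ X → jacobiSym X p = 1) ∧ ((p : ℤ) ∣ X → jacobiSym (-Y) p = 1)) ∨
    ∀ p ∈ N, (¬ (p : ℤ) ∣ X → jacobiSym (-X) p = 1) ∧ ((p : ℤ) ∣ X → jacobiSym Y p = 1)) → X = 1

/-! ### the main statements -/

/-- SC-14: evenness over `ℚ(√D)` -/
def S_EV : Prop := ∀ N : Finset ℕ, (∀ p ∈ N, p.Prime ∧ p ≠ 2) → pr N % 8 = 3 → Kr N → KrS N →
  ∀ (ι : QBar →ₐ[ℚ] PadicAlgCl 2) (s : QBar) (r : ℤ), s ^ 2 = -((pr N : ℕ) : QBar) →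
  ∀ c : Gal → ℤ_[2], Coc ι s r c → (∀ σ ∈ Dec ι, σ s = s → c σ = 0) →
    ∀ σ : Gal, σ s = s → (2 : ℤ_[2]) ∣ c σ

end Pool.Agent.NH5.SC
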