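import Pool.Agent.NH5.SC.Fin

/-!
# Project SC: the groups `Ш¹(O_{L,S}, ℤ_2(r))` of `L = ℚ(s)`
-/

set_option autoImplicit false

namespace Pool.Agent.NH5.SC

open Pool.Agent.XR (NoFour)

/-- The absolute Galois group of `L = ℚ(s)`. -/
noncomputable def sub (s : QBar) : Subgroup Gal := (IntermediateField.adjoin ℚ {s}).fixingSubgroup

/-- The absolute Galois group of `L = ℚ(s)`. -/
abbrev GalL (s : QBar) : Type := ↥(sub s)

theorem mem_sub {s : QBar} {σ : Gal} : σ ∈ sub s ↔ σ s = s := by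
  unfold sub
  rw [IntermediateField.mem_fixingSubgroup_iff]
  constructor
  · intro h
    exact h s (IntermediateField.mem_adjoin_simple_self ℚ s)
  · intro h x hx
    have h1 : IntermediateField.adjoin ℚ {s} ≤
        IntermediateField.fixedField (Subgroup.zpowers σ) := by
      rw [IntermediateField.adjoin_simple_le_iff, IntermediateField.mem_fixedField_iff]
      intro τ hτ
      obtain ⟨k, rfl⟩ := hτ
      have h2 : σ ∈ MulAction.stabilizer Gal s := h
      exact (MulAction.stabilizer Gal s).zpow_mem h2 k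
    exact (IntermediateField.mem_fixedField_iff _ x).1 (h1 hx) σ (Subgroup.mem_zpowers σ)

/-- The vanishing in terms of the functions on the absolute Galois group of `L`. -/
theorem top {D : ℤ} (h0 : D < 0) (hD : Squarefree D) (h8 : D % 8 = 5) (hF : NoFour D)
    {s : QBar} (hs : s ^ 2 = (D : QBar)) (r : ℤ) (c : GalL s → ℤ_[2]) (hcont : Continuous c)
    (hmul : ∀ σ τ : GalL s, c (σ * τ) = c σ + tw r (σ : Gal) * c τ)
    (hodd : ∀ (p : ℕ) [Fact p.Prime] (κ : QBar →ₐ[ℚ] PadicAlgCl p), p ≠ 2 →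
      ∀ σ : GalL s, (σ : Gal) ∈ Inr κ → c σ = 0)
    (htwo : ∀ ι : QBar →ₐ[ℚ] PadicAlgCl 2, ∃ z : ℤ_[2], ∀ σ : GalL s, (σ : Gal) ∈ Dec ι →
      c σ = (tw r (σ : Gal) - 1) * z) :
    ∃ z : ℤ_[2], ∀ σ : GalL s, c σ = (tw r (σ : Gal) - 1) * z := by
  classical
  obtain ⟨ι⟩ := emb_ex 2
  set c' : Gal → ℤ_[2] := fun σ => if h : σ ∈ sub s then c ⟨σ, h⟩ else 0 with hc'
  have hval : ∀ σ : GalL s, c' (σ : Gal) = c σ := fun σ => dif_pos σ.2
  have hset : {σ : Gal | σ s = s} = (sub s : Set Gal) := by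
    ext σ
    exact mem_sub.symm
  have hcoc : Coc ι s r c' := by
    refine ⟨?_, ?_, ?_, ?_⟩
    · rw [hset, continuousOn_iff_continuous_domRestrict]
      have e : (↑(sub s) : Set Gal).domRestrict c' = c := funext hval
      rw [e]
      exact hcont
    · intro σ τ hσ hτ
      have h1 := hmul ⟨σ, mem_sub.2 hσ⟩ ⟨τ, mem_sub.2 hτ⟩
      rw [← hval, ← hval, ← hval] at h1
      exact h1
    · intro p _ κ hp σ hσ h
      have h1 := hodd p κ hp ⟨σ, mem_sub.2 h⟩ hσ
      rw [← hval] at h1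
      exact h1
    · obtain ⟨z, hz⟩ := htwo ι
      refine ⟨z, fun σ hσ h => ?_⟩
      have h1 := hz ⟨σ, mem_sub.2 h⟩ hσ
      rw [← hval] at h1
      exact h1
  obtain ⟨z, hz⟩ := van h0 hD h8 hF ι hs r c' hcoc
  refine ⟨z, fun σ => ?_⟩
  rw [← hval]
  exact hz σ (mem_sub.1 σ.2)

end Pool.Agent.NH5.SC
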